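import Pool.Agent.Run7.h976.IR.Maj

/-!
The bounds for almost every wave vector.
-/

set_option autoImplicit false

namespace Run7.h976.IR

open MeasureTheory Filter Topology
open Pool.Agent.Results.MP_54f242_pr.InfraredMean

variable {d : ℕ}

theorem bad_maj (X B R : ℝ) (hB : 0 < B) (h : ∃ g : (Fin d → ℝ) → ℝ, Continuous g ∧
      (∀ k, 0 ≤ g k) ∧
      (∀ (p : NNReal) (hp : p ≤ 1), Summable (tau d p hp) → chi d p hp ≤ X → ∀ k,
        G d p hp k ≤ g k) ∧
      ∫ k in cube d, g k ≤ R * volume.real (cube d)) :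
    volume (bad d X B) ≤ ENNReal.ofReal (R * volume.real (cube d) / B) := by
  obtain ⟨g, h1, h2, h3, h4⟩ := h
  have hfin : volume (bad d X B) ≠ ⊤ :=
    ne_top_of_le_ne_top cube_fin.ne (measure_mono fun k hk => hk.1)
  rw [← ofReal_measureReal hfin]
  refine ENNReal.ofReal_le_ofReal ?_
  have hsub : bad d X B ⊆ {k | B ≤ g k} ∩ cube d := by
    rintro k ⟨hk, p, hp, hs, hχ, hG⟩
    exact ⟨hG.trans (h3 p hp hs hχ k), hk⟩
  have hmk := mul_meas_ge_le_integral_of_nonneg (μ := volume.restrict (cube d))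
    (Eventually.of_forall h2) (integrable_of_cont h1) B
  rw [measureReal_restrict_apply (measurableSet_le measurable_const h1.measurable)] at hmk
  rw [le_div_iff₀ hB, mul_comm]
  refine (mul_le_mul_of_nonneg_left (measureReal_mono hsub (ne_top_of_le_ne_top cube_fin.ne
    (measure_mono Set.inter_subset_right))) hB.le).trans (hmk.trans h4)

/-- no loss, when the tails are summable in the dyadic sense -/
theorem ae_tail (K : ℝ)
    (hK : ∀ (p : NNReal) (hp : p ≤ 1), Summable (tau d p hp) → ∀ J : ℕ,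
      ∑ j ∈ Finset.range J, ((j : ℝ) + 1) ^ 2 * tail d p hp (2 ^ j) ≤ K) :
    ∀ᵐ k : Fin d → ℝ, k ∈ cube d → ∃ B : ℝ, ∀ (p : NNReal) (hp : p ≤ 1),
      Summable (tau d p hp) → G d p hp k ≤ B := by
  have hK0 : 0 ≤ K := by
    have := hK (p0 d).1 (p0 d).2.choose (p0 d).2.choose_spec 0
    simpa using this
  set V : ℝ := (4 * K + 2) * volume.real (cube d) with hV
  have hV0 : 0 ≤ V := mul_nonneg (by linarith) measureReal_nonneg
  have h1 : ∀ B : ℕ, volume (⋃ X : ℕ, bad d (X : ℝ) ((B : ℝ) + 1)) ≤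
      ENNReal.ofReal (V / ((B : ℝ) + 1)) := by
    intro B
    have hmono : Monotone fun X : ℕ => bad d (X : ℝ) ((B : ℝ) + 1) := by
      intro X Y hXY k hk
      obtain ⟨hk1, p, hp, hs, hχ, hG⟩ := hk
      exact ⟨hk1, p, hp, hs, hχ.trans (by exact_mod_cast hXY), hG⟩
    rw [hmono.measure_iUnion]
    exact iSup_le fun X => bad_maj _ _ _ (by positivity) (maj_tail (X : ℝ) K hK0 hK)
  have h2 : volume (⋂ B : ℕ, ⋃ X : ℕ, bad d (X : ℝ) ((B : ℝ) + 1)) = 0 := by
    refine le_antisymm (ge_of_tendsto' (f := fun B : ℕ => ENNReal.ofReal (V / ((B : ℝ) + 1)))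
      (x := atTop) ?_ fun B => (measure_mono (Set.iInter_subset _ B)).trans (h1 B)) zero_le
    have h3 : Tendsto (fun B : ℕ => V / ((B : ℝ) + 1)) atTop (𝓝 0) := by
      have := (tendsto_one_div_add_atTop_nhds_zero_nat (𝕜 := ℝ)).const_mul V
      simpa [div_eq_mul_inv] using this
    have := ENNReal.tendsto_ofReal h3
    simpa using this
  have h4 := measure_eq_zero_iff_ae_notMem.1 h2
  filter_upwards [h4] with k hk hkc
  simp only [Set.mem_iInter, Set.mem_iUnion, not_forall, not_exists] at hk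
  obtain ⟨B, hB⟩ := hk
  refine ⟨(B : ℝ) + 1, fun p hp hs => ?_⟩
  by_contra hc
  rw [not_le] at hc
  obtain ⟨X, hX⟩ := exists_nat_ge (chi d p hp)
  exact hB X ⟨hkc, p, hp, hs, hX, hc.le⟩

theorem bad_sum : ∑' n : ℕ, volume (bad d ((2 : ℝ) ^ (2 ^ n)) (8 ^ n * ((n : ℝ) + 1) ^ 2)) ≠ ⊤ := by
  have h1 : ∀ n : ℕ, volume (bad d ((2 : ℝ) ^ (2 ^ n)) (8 ^ n * ((n : ℝ) + 1) ^ 2)) ≤
      ENNReal.ofReal (432 * volume.real (cube d) * (1 / ((n : ℝ) + 1) ^ 2)) := by
    intro n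
    have h8 : (0 : ℝ) < 8 ^ n := by positivity
    refine (bad_maj _ _ _ (by positivity) (maj_cube ((2 : ℝ) ^ (2 ^ n)) (2 ^ n) le_rfl)).trans
      (ENNReal.ofReal_le_ofReal ?_)
    push_cast
    have h2 : ((2 : ℝ) ^ n + 1) ^ 3 ≤ 8 * 8 ^ n := by
      have h3 : (2 : ℝ) ^ n + 1 ≤ 2 * 2 ^ n := by
        have : (1 : ℝ) ≤ 2 ^ n := one_le_pow₀ (by norm_num)
        linarith
      calc ((2 : ℝ) ^ n + 1) ^ 3 ≤ (2 * 2 ^ n) ^ 3 := pow_le_pow_left₀ (by positivity) h3 3
        _ = 8 * 8 ^ n := by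
            rw [mul_pow, ← pow_mul, mul_comm n 3, pow_mul]
            norm_num
    have hv : 0 ≤ volume.real (cube d) := measureReal_nonneg
    have hn1 : (0 : ℝ) < ((n : ℝ) + 1) ^ 2 := by positivity
    rw [div_le_iff₀ (by positivity)]
    calc 54 * ((2 : ℝ) ^ n + 1) ^ 3 * volume.real (cube d)
        ≤ 54 * (8 * 8 ^ n) * volume.real (cube d) := by gcongr
      _ = 432 * volume.real (cube d) * (1 / ((n : ℝ) + 1) ^ 2) * (8 ^ n * ((n : ℝ) + 1) ^ 2) := by
          field_simp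
          ring
  have hs : Summable fun n : ℕ => 432 * volume.real (cube d) * (1 / ((n : ℝ) + 1) ^ 2) := by
    refine Summable.mul_left _ ?_
    have := (summable_nat_add_iff 1).2 (Real.summable_one_div_nat_pow.2 (by norm_num : 1 < 2))
    simpa using this
  refine ne_top_of_le_ne_top ?_ (ENNReal.tsum_le_tsum h1)
  rw [← ENNReal.ofReal_tsum_of_nonneg (fun n => ?_) hs]
  · exact ENNReal.ofReal_ne_top
  · have := measureReal_nonneg (μ := volume) (s := cube d)
    positivity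

/-- the exponent of a number -/
theorem exp_exp (c : ℝ) (hc : 1 ≤ c) : ∃ m : ℕ, c ≤ (2 : ℝ) ^ (2 ^ m) ∧
    (2 : ℝ) ^ m ≤ 4 * (1 + Real.log c) ∧ (m : ℝ) ≤ 2 * (1 + Real.log (1 + Real.log c)) := by
  classical
  have hlog0 : 0 ≤ Real.log c := Real.log_nonneg hc
  have hll0 : 0 ≤ Real.log (1 + Real.log c) := Real.log_nonneg (by linarith)
  have hex : ∃ m : ℕ, c ≤ (2 : ℝ) ^ (2 ^ m) := by
    obtain ⟨j, hj⟩ := pow_unbounded_of_one_lt c (by norm_num : (1 : ℝ) < 2)
    refine ⟨j, hj.le.trans (pow_le_pow_right₀ (by norm_num) Nat.lt_two_pow_self.le)⟩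
  refine ⟨Nat.find hex, Nat.find_spec hex, ?_⟩
  rcases Nat.eq_zero_or_pos (Nat.find hex) with h0 | h0
  · rw [h0]
    constructor
    · simp; linarith
    · simp; linarith
  · obtain ⟨j, hj⟩ : ∃ j, Nat.find hex = j + 1 := ⟨Nat.find hex - 1, by omega⟩
    have hlt : (2 : ℝ) ^ (2 ^ j) < c := not_le.1 (Nat.find_min hex (m := j) (by omega))
    have hl2 : (1 : ℝ) / 2 ≤ Real.log 2 := by linarith [Real.log_two_gt_d9]
    have h3 : (2 : ℝ) ^ j * Real.log 2 ≤ Real.log c := by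
      have := Real.log_le_log (by positivity) hlt.le
      rw [Real.log_pow] at this
      exact_mod_cast this
    have h2j : (0 : ℝ) < 2 ^ j := by positivity
    have h4 : (2 : ℝ) ^ j ≤ 2 * Real.log c := by nlinarith
    rw [hj]
    constructor
    · rw [pow_succ]; linarith
    · have h5 : (j : ℝ) * Real.log 2 ≤ Real.log 2 + Real.log (1 + Real.log c) := by
        rw [← Real.log_mul (by norm_num) (by linarith), ← Real.log_pow]
        exact Real.log_le_log (by positivity) (by linarith)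
      have h6 : (j : ℝ) ≤ 1 + 2 * Real.log (1 + Real.log c) := by
        by_contra hcon
        rw [not_le] at hcon
        have h7 : (1 + 2 * Real.log (1 + Real.log c)) * Real.log 2 < (j : ℝ) * Real.log 2 :=
          mul_lt_mul_of_pos_right hcon (by linarith)
        nlinarith
      push_cast
      linarith

/-- the bound for almost every wave vector -/
theorem ae_log : ∀ᵐ k : Fin d → ℝ, k ∈ cube d → ∃ C : ℝ,
    ∀ (p : NNReal) (hp : p ≤ 1), Summable (tau d p hp) →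
      G d p hp k ≤ C * ((1 + Real.log (chi d p hp)) ^ 3 *
        (1 + Real.log (1 + Real.log (chi d p hp))) ^ 2) := by
  filter_upwards [ae_eventually_notMem (bad_sum (d := d))] with k hk hkc
  obtain ⟨N, hN⟩ := eventually_atTop.1 hk
  refine ⟨8 ^ N * 64 * ((N : ℝ) + 3) ^ 2, fun p hp hs => ?_⟩
  have hχ := chi_ge p hp hs
  generalize hc : chi d p hp = c at hχ ⊢
  have hlog0 : 0 ≤ Real.log c := Real.log_nonneg hχ
  have hll0 : 0 ≤ Real.log (1 + Real.log c) := Real.log_nonneg (by linarith)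
  obtain ⟨m, hm1, hm2, hm3⟩ := exp_exp c hχ
  have h1 := hN (N + m) (Nat.le_add_right _ _)
  have h2 : G d p hp k < 8 ^ (N + m) * (((N + m : ℕ) : ℝ) + 1) ^ 2 := by
    by_contra hcon
    refine h1 ⟨hkc, p, hp, hs, ?_, not_lt.1 hcon⟩
    rw [hc]
    exact hm1.trans (pow_le_pow_right₀ (by norm_num) (Nat.pow_le_pow_right (by norm_num)
      (Nat.le_add_left m N)))
  refine h2.le.trans ?_
  have e1 : (8 : ℝ) ^ (N + m) = 8 ^ N * (2 ^ m) ^ 3 := by
    rw [pow_add, ← pow_mul, mul_comm m 3, pow_mul]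
    norm_num
  have h3 : ((2 : ℝ) ^ m) ^ 3 ≤ (4 * (1 + Real.log c)) ^ 3 := pow_le_pow_left₀ (by positivity) hm2 3
  have h4 : (((N + m : ℕ) : ℝ) + 1) ^ 2 ≤
      (((N : ℝ) + 3) * (1 + Real.log (1 + Real.log c))) ^ 2 := by
    refine pow_le_pow_left₀ (by positivity) ?_ 2
    push_cast
    have hN0 : (0 : ℝ) ≤ (N : ℝ) := Nat.cast_nonneg N
    nlinarith [mul_nonneg hN0 hll0]
  rw [e1]
  calc 8 ^ N * ((2 : ℝ) ^ m) ^ 3 * (((N + m : ℕ) : ℝ) + 1) ^ 2
      ≤ 8 ^ N * (4 * (1 + Real.log c)) ^ 3 *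
        (((N : ℝ) + 3) * (1 + Real.log (1 + Real.log c))) ^ 2 := by gcongr
    _ = _ := by ring

end Run7.h976.IR
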