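import Pool.Agent.Run7.h976.IR.RM

/-!
Clusters at all parameters on one probability space, and the maximal inequality in a finite box.
-/

set_option autoImplicit false

namespace Run7.h976.IR

open MeasureTheory Filter Topology
open Pool.Agent.Results.MP_54f242_pr.InfraredMean

variable {d : ℕ}

/-- the edges of `ℤ^d` -/
abbrev Ed (d : ℕ) : Type := (Fin d → ℤ) × Fin d

/-- independent uniform labels -/
noncomputable def M (d : ℕ) : Measure (Ed d → unitInterval) :=
  Measure.infinitePi (fun _ => (volume : Measure unitInterval))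

instance : IsProbabilityMeasure (M d) := by unfold M; infer_instance

/-- the configuration at the parameter `p` -/
noncomputable def conf (p : NNReal) (ω : Ed d → unitInterval) : Ed d → Bool :=
  fun e => decide ((ω e : ℝ) < p)

theorem dec_meas (p : NNReal) : Measurable fun u : unitInterval => decide ((u : ℝ) < p) := by
  have h : MeasurableSet {u : unitInterval | (u : ℝ) < p} :=
    measurableSet_lt measurable_subtype_coe measurable_const
  refine measurable_to_bool ?_
  convert h using 1
  ext u
  simp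

theorem conf_meas (p : NNReal) : Measurable (conf (d := d) p) :=
  measurable_pi_iff.2 fun e => (dec_meas p).comp (measurable_pi_apply e)

theorem dec_map (p : NNReal) (hp : p ≤ 1) :
    (volume : Measure unitInterval).map (fun u : unitInterval => decide ((u : ℝ) < p)) =
      (PMF.bernoulli p hp).toMeasure := by
  have : IsProbabilityMeasure ((volume : Measure unitInterval).map
      (fun u : unitInterval => decide ((u : ℝ) < p))) :=
    Measure.isProbabilityMeasure_map (dec_meas p).aemeasurable
  refine bool_ext _ _ ?_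
  rw [Measure.map_apply (dec_meas p) (MeasurableSet.singleton true), ber_true]
  have e : (fun u : unitInterval => decide ((u : ℝ) < p)) ⁻¹' {true} =
      Set.Iio (⟨(p : ℝ), p.2, by exact_mod_cast hp⟩ : unitInterval) := by
    ext u
    simp only [Set.mem_preimage, Set.mem_singleton_iff, decide_eq_true_eq, Set.mem_Iio,
      ← Subtype.coe_lt_coe]
  rw [e, unitInterval.volume_Iio]
  simp

theorem map_conf (p : NNReal) (hp : p ≤ 1) : (M d).map (conf p) = P d p hp := by
  have := Measure.infinitePi_map_pi (μ := fun _ : Ed d => (volume : Measure unitInterval))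
    (f := fun _ => fun u : unitInterval => decide ((u : ℝ) < p)) (fun _ => dec_meas p)
  simp only [dec_map p hp] at this
  exact this

theorem conf_mono {p q : NNReal} (h : p ≤ q) (ω : Ed d → unitInterval) :
    opn (conf p ω) ≤ opn (conf q ω) := by
  refine opn_mono fun e he => ?_
  simp only [conf, decide_eq_true_eq] at he ⊢
  exact he.trans_le (by exact_mod_cast h)

theorem reach_meas (p : NNReal) (x y : Fin d → ℤ) :
    MeasurableSet {ω : Ed d → unitInterval | (opn (conf p ω)).Reachable x y} :=
  conf_meas p (meas_reach x y)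

theorem reach_prob (p : NNReal) (hp : p ≤ 1) (x y : Fin d → ℤ) :
    (M d).real {ω | (opn (conf p ω)).Reachable x y} = tau d p hp (y - x) := by
  rw [← prob_reach p hp x y, ← map_conf p hp, Measure.map_apply (conf_meas p) (meas_reach x y)]
  rfl

open Classical in
/-- the part of the cluster of `x` which lies in `Λ` -/
noncomputable def Bx (Λ : Finset (Fin d → ℤ)) (p : NNReal) (ω : Ed d → unitInterval)
    (x : Fin d → ℤ) : Finset (Fin d → ℤ) :=
  Λ.filter (fun y => (opn (conf p ω)).Reachable x y)

theorem Bx_mono (Λ : Finset (Fin d → ℤ)) {p q : NNReal} (h : p ≤ q) (ω : Ed d → unitInterval)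
    (x : Fin d → ℤ) : Bx Λ p ω x ⊆ Bx Λ q ω x := by
  classical
  intro y hy
  rw [Bx, Finset.mem_filter] at hy ⊢
  exact ⟨hy.1, hy.2.mono (conf_mono h ω)⟩

theorem Bx_self (Λ : Finset (Fin d → ℤ)) (p : NNReal) (ω : Ed d → unitInterval)
    {x : Fin d → ℤ} (hx : x ∈ Λ) : x ∈ Bx Λ p ω x := by
  classical
  rw [Bx, Finset.mem_filter]
  exact ⟨hx, SimpleGraph.Reachable.refl _⟩

theorem Bx_eq (Λ : Finset (Fin d → ℤ)) (p : NNReal) (ω : Ed d → unitInterval)
    {x y : Fin d → ℤ} (hy : y ∈ Bx Λ p ω x) : Bx Λ p ω y = Bx Λ p ω x := by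
  classical
  rw [Bx, Finset.mem_filter] at hy
  unfold Bx
  refine Finset.filter_congr fun z _ => ⟨fun h => hy.2.trans h, fun h => hy.2.symm.trans h⟩

theorem Bx_meas (Λ : Finset (Fin d → ℤ)) (p : NNReal) (x : Fin d → ℤ)
    (B : Finset (Fin d → ℤ)) : MeasurableSet {ω | Bx Λ p ω x = B} := by
  classical
  by_cases hB : B ⊆ Λ
  · have e : {ω | Bx Λ p ω x = B} =
        ⋂ y ∈ Λ, (if y ∈ B then {ω | (opn (conf p ω)).Reachable x y}
          else {ω | (opn (conf p ω)).Reachable x y}ᶜ) := by
      ext ω
      simp only [Set.mem_ofPred_eq, Set.mem_iInter]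
      constructor
      · rintro rfl y hy
        by_cases h : (opn (conf p ω)).Reachable x y
        · rw [if_pos (by rw [Bx, Finset.mem_filter]; exact ⟨hy, h⟩)]; exact h
        · rw [if_neg (by rw [Bx, Finset.mem_filter]; exact fun h2 => h h2.2)]; exact h
      · intro h
        ext y
        rw [Bx, Finset.mem_filter]
        constructor
        · rintro ⟨h1, h2⟩
          have h3 := h y h1
          by_contra h4
          rw [if_neg h4] at h3
          exact h3 h2
        · intro h1
          have h3 := h y (hB h1)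
          rw [if_pos h1] at h3
          exact ⟨hB h1, h3⟩
    rw [e]
    refine Finset.measurableSet_biInter _ fun y _ => ?_
    split_ifs
    · exact reach_meas p x y
    · exact (reach_meas p x y).compl
  · have e : {ω | Bx Λ p ω x = B} = ∅ := by
      ext ω
      simp only [Set.mem_ofPred_eq, Set.mem_empty_iff_false, iff_false]
      rintro rfl
      exact hB (Finset.filter_subset _ _)
    rw [e]; exact MeasurableSet.empty

/-- the double counting identity -/
theorem sum_nB (Λ : Finset (Fin d → ℤ)) (p : NNReal) (ω : Ed d → unitInterval) (k : Fin d → ℝ) :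
    ∑ x ∈ Λ, nB (Bx Λ p ω x) k / (Bx Λ p ω x).card =
      ∑ x ∈ Λ, ∑ y ∈ Bx Λ p ω x, Real.cos (dot k (y - x)) := by
  classical
  set g : (Fin d → ℤ) → ℝ := fun y => ∑ z ∈ Bx Λ p ω y, Real.cos (dot k (z - y)) with hg
  have h1 : ∀ x ∈ Λ, nB (Bx Λ p ω x) k / (Bx Λ p ω x).card =
      ∑ y ∈ Bx Λ p ω x, g y / (Bx Λ p ω y).card := by
    intro x hx
    rw [nB_eq, Finset.sum_div]
    refine Finset.sum_congr rfl fun y hy => ?_
    rw [hg]
    simp only
    rw [Bx_eq Λ p ω hy]
  rw [Finset.sum_congr rfl h1]
  have h2 : ∑ x ∈ Λ, ∑ y ∈ Bx Λ p ω x, g y / (Bx Λ p ω y).card =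
      ∑ y ∈ Λ, ∑ x ∈ Bx Λ p ω y, g y / (Bx Λ p ω y).card := by
    refine Finset.sum_comm' fun x y => ?_
    simp only [Bx, Finset.mem_filter]
    constructor
    · rintro ⟨h1, h2, h3⟩; exact ⟨⟨h1, h3.symm⟩, h2⟩
    · rintro ⟨⟨h1, h3⟩, h2⟩; exact ⟨h1, h2, h3.symm⟩
  rw [h2]
  refine Finset.sum_congr rfl fun y hy => ?_
  rw [Finset.sum_const, nsmul_eq_mul]
  have : ((Bx Λ p ω y).card : ℝ) ≠ 0 := by
    have := Finset.card_pos.2 ⟨y, Bx_self Λ p ω hy⟩
    positivity
  field_simp

end Run7.h976.IR
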