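import Pool.Agent.Run7.h976.IR.Max

/-!
The maximal inequality over the parameter in the limit of large boxes.
-/

set_option autoImplicit false

namespace Run7.h976.IR

open MeasureTheory Filter Topology
open Pool.Agent.Results.MP_54f242_pr.InfraredMean

variable {d : ℕ}

/-- the box average of the two-point function -/
noncomputable def bav (p : NNReal) (hp : p ≤ 1) (N : ℕ) (k : Fin d → ℝ) : ℝ :=
  (∑ x ∈ box d N, ∑ y ∈ box d N, tau d p hp (y - x) * Real.cos (dot k (y - x))) / (N : ℝ) ^ d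

theorem bav_key (p : NNReal) (hp : p ≤ 1) (hs : Summable (tau d p hp)) (N : ℕ) (k : Fin d → ℝ) :
    bav p hp N k = ∑' z, tau d p hp z * Real.cos (dot k z) * prop N z := by
  classical
  set F : (Fin d → ℤ) → ℝ := fun z => tau d p hp z * Real.cos (dot k z) with hF
  have hFb : ∀ z, ‖F z‖ ≤ tau d p hp z := by
    intro z
    rw [hF, Real.norm_eq_abs, abs_mul, abs_of_nonneg (tau_nonneg p hp z)]
    exact mul_le_of_le_one_right (tau_nonneg p hp z) (Real.abs_cos_le_one _)
  have key : (∑ x ∈ box d N, ∑ y ∈ box d N, F (y - x)) / (N : ℝ) ^ d =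
      ∑' z, F z * prop N z := by
    have h1 : ∀ x, ∑ y ∈ box d N, F (y - x) = ∑' z, (if x + z ∈ box d N then F z else 0) := by
      intro x
      rw [← (Equiv.subRight x).tsum_eq]
      rw [tsum_eq_sum (s := box d N)]
      · refine Finset.sum_congr rfl fun y hy => ?_
        simp [hy]
      · intro y hy
        simp [hy]
    have h2 : ∀ x, Summable (fun z => (if x + z ∈ box d N then F z else 0)) := by
      intro x
      refine Summable.of_norm_bounded hs fun z => ?_
      split_ifs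
      · exact hFb z
      · simpa using tau_nonneg p hp z
    simp_rw [h1]
    rw [← Summable.tsum_finsetSum (fun x _ => h2 x), ← tsum_div_const]
    refine tsum_congr fun z => ?_
    rw [← Finset.sum_filter, Finset.sum_const, nsmul_eq_mul, prop]
    ring
  exact key

theorem bav_tendsto (p : NNReal) (hp : p ≤ 1) (hs : Summable (tau d p hp)) (k : Fin d → ℝ) :
    Tendsto (fun N : ℕ => bav p hp N k) atTop (𝓝 (cs (tau d p hp) k)) := by
  have hlim : Tendsto (fun N : ℕ => ∑' z, tau d p hp z * Real.cos (dot k z) * prop N z) atTop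
      (𝓝 (∑' z, tau d p hp z * Real.cos (dot k z) * 1)) := by
    refine tendsto_tsum_of_dominated_convergence (bound := tau d p hp) hs
      (fun z => (prop_tendsto z).const_mul _) (Eventually.of_forall fun N z => ?_)
    rw [norm_mul, Real.norm_eq_abs (prop N z), abs_of_nonneg (prop_nonneg N z)]
    refine (mul_le_of_le_one_right (norm_nonneg _) (prop_le_one N z)).trans ?_
    rw [Real.norm_eq_abs, abs_mul, abs_of_nonneg (tau_nonneg p hp z)]
    exact mul_le_of_le_one_right (tau_nonneg p hp z) (Real.abs_cos_le_one _)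
  simp only [mul_one] at hlim
  exact hlim.congr fun N => (bav_key p hp hs N k).symm

theorem bav_abs (p : NNReal) (hp : p ≤ 1) (hs : Summable (tau d p hp)) (N : ℕ) (k : Fin d → ℝ) :
    |bav p hp N k| ≤ chi d p hp := by
  rw [bav_key p hp hs, ← Real.norm_eq_abs]
  refine tsum_of_norm_bounded hs.hasSum fun z => ?_
  rw [norm_mul, Real.norm_eq_abs (prop N z), abs_of_nonneg (prop_nonneg N z)]
  refine (mul_le_of_le_one_right (norm_nonneg _) (prop_le_one N z)).trans ?_
  rw [Real.norm_eq_abs, abs_mul, abs_of_nonneg (tau_nonneg p hp z)]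
  exact mul_le_of_le_one_right (tau_nonneg p hp z) (Real.abs_cos_le_one _)

theorem bav_cont (p : NNReal) (hp : p ≤ 1) (N : ℕ) : Continuous (bav (d := d) p hp N) := by
  unfold bav dot; fun_prop

/-- the maximal inequality in the limit -/
theorem lim_max {w : (Fin d → ℝ) → ℝ} (hw : Wt w) (p : ℕ → NNReal) (hmon : Monotone p)
    (hp : ∀ i, p i ≤ 1) (hsum : ∀ i, Summable (tau d (p i) (hp i))) (m : ℕ) (s : ℕ → ℝ)
    (hs : ∀ N : ℕ, ∀ y ∈ box d N, ∀ j, ∑ z ∈ box d N, wh w (z - y) * (M d).real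
      {ω | (opn (conf (p m) ω)).Reachable y z ∧ 2 ^ j ≤ (Bx (box d N) (p m) ω y).card} ≤ s j)
    (K : ℝ) (hK : ∀ J : ℕ, ∑ j ∈ Finset.range J, ((j : ℝ) + 1) ^ 2 * s j ≤ K) :
    ∫ k in cube d, w k * (Finset.range (m + 1)).sup' ⟨0, Finset.mem_range.2 (Nat.succ_pos m)⟩
      (fun i => cs (tau d (p i) (hp i)) k) ≤ 2 * K := by
  set R := Finset.range (m + 1) with hR
  have hne : R.Nonempty := ⟨0, Finset.mem_range.2 (Nat.succ_pos m)⟩
  set f : ℕ → (Fin d → ℝ) → ℝ := fun N k => w k * R.sup' hne (fun i => bav (p i) (hp i) N k)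
    with hf
  have hfc : ∀ N, Continuous (f N) := fun N =>
    hw.cont.mul (Continuous.finset_sup'_apply hne fun i _ => bav_cont (p i) (hp i) N)
  -- the bound
  have hchi : ∀ i ∈ R, chi d (p i) (hp i) ≤ chi d (p m) (hp m) := by
    intro i hi
    rw [hR, Finset.mem_range] at hi
    exact Summable.tsum_le_tsum (fun x => tau_mono _ _ _ _ (hmon (by omega)) x) (hsum i) (hsum m)
  have hfb : ∀ N k, ‖f N k‖ ≤ w k * chi d (p m) (hp m) := by
    intro N k
    rw [hf, Real.norm_eq_abs, abs_mul, abs_of_nonneg (hw.nn k)]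
    refine mul_le_mul_of_nonneg_left ?_ (hw.nn k)
    obtain ⟨i, hi, he⟩ := R.exists_mem_eq_sup' hne (fun i => bav (p i) (hp i) N k)
    rw [he]
    exact (bav_abs _ _ (hsum i) N k).trans (hchi i hi)
  have hlim : ∀ k, Tendsto (fun N => f N k) atTop
      (𝓝 (w k * R.sup' hne (fun i => cs (tau d (p i) (hp i)) k))) := fun k =>
    (Filter.Tendsto.finset_sup'_nhds_apply hne
      (fun i _ => bav_tendsto (p i) (hp i) (hsum i) k)).const_mul (w k)
  have hT : Tendsto (fun N => ∫ k in cube d, f N k) atTop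
      (𝓝 (∫ k in cube d, w k * R.sup' hne (fun i => cs (tau d (p i) (hp i)) k))) := by
    refine tendsto_integral_of_dominated_convergence (fun k => w k * chi d (p m) (hp m))
      (fun N => (hfc N).aestronglyMeasurable)
      (integrable_of_cont (hw.cont.mul continuous_const))
      (fun N => Eventually.of_forall fun k => hfb N k)
      (Eventually.of_forall fun k => hlim k)
  refine le_of_tendsto hT ?_
  filter_upwards [eventually_gt_atTop 0] with N hN
  obtain ⟨W, hW1, hW2, hW3⟩ := box_max hw (box d N) p hmon hp m s (hs N) K hK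
  have hNd : (0 : ℝ) < (N : ℝ) ^ d := by positivity
  have h1 : ∀ k, f N k ≤ w k * W k / (N : ℝ) ^ d := by
    intro k
    rw [hf, mul_div_assoc]
    refine mul_le_mul_of_nonneg_left ?_ (hw.nn k)
    refine Finset.sup'_le hne _ fun i hi => ?_
    rw [hR, Finset.mem_range] at hi
    exact div_le_div_of_nonneg_right (hW2 i (by omega) k) hNd.le
  have h2 : ∫ k in cube d, f N k ≤ ∫ k in cube d, w k * W k / (N : ℝ) ^ d :=
    integral_mono (integrable_of_cont (hfc N))
      (integrable_of_cont ((hw.cont.mul hW1).div_const _)) h1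
  refine h2.trans ?_
  rw [integral_div, div_le_iff₀ hNd]
  rw [box_card] at hW3
  linarith

theorem tf_eq (a : Par d) (q : NNReal) (hq : q ≤ 1) (h : a.1 = q) : tf a = tau d q hq := by
  subst h; rfl

/-- a majorant for finitely many parameters -/
theorem maj_fin {w : (Fin d → ℝ) → ℝ} (hw : Wt w) (A : Finset (Par d)) (s : Par d → ℕ → ℝ)
    (hs : ∀ a ∈ A, ∀ N : ℕ, ∀ y ∈ box d N, ∀ j, ∑ z ∈ box d N, wh w (z - y) * (M d).real
      {ω | (opn (conf a.1 ω)).Reachable y z ∧ 2 ^ j ≤ (Bx (box d N) a.1 ω y).card} ≤ s a j)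
    (K : ℝ) (hK0 : 0 ≤ K)
    (hK : ∀ a ∈ A, ∀ J : ℕ, ∑ j ∈ Finset.range J, ((j : ℝ) + 1) ^ 2 * s a j ≤ K) :
    ∃ g : (Fin d → ℝ) → ℝ, Continuous g ∧ (∀ k, 0 ≤ g k) ∧ (∀ a ∈ A, ∀ k, cs (tf a) k ≤ g k) ∧
      ∫ k in cube d, w k * g k ≤ 2 * K := by
  classical
  rcases A.eq_empty_or_nonempty with h0 | h0
  · subst h0
    refine ⟨fun _ => 0, continuous_const, fun _ => le_rfl, by simp, ?_⟩
    simp only [mul_zero, integral_zero]
    linarith
  set Q : Finset NNReal := A.image (fun a => a.1) with hQ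
  have hQne : Q.Nonempty := h0.image _
  set n := Q.card with hn
  have hn0 : 0 < n := hQne.card_pos
  set e := Q.orderEmbOfFin (k := n) rfl with he
  set p : ℕ → NNReal := fun i => e ⟨min i (n - 1), by omega⟩ with hpdef
  have hmem : ∀ i, p i ∈ Q := fun i => Q.orderEmbOfFin_mem rfl _
  have hpar : ∀ i, ∃ a ∈ A, a.1 = p i := fun i => by
    obtain ⟨a, ha, h⟩ := Finset.mem_image.1 (hmem i)
    exact ⟨a, ha, h⟩
  have hp : ∀ i, p i ≤ 1 := fun i => by
    obtain ⟨a, _, h⟩ := hpar i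
    rw [← h]; exact a.2.choose
  have hsum : ∀ i, Summable (tau d (p i) (hp i)) := fun i => by
    obtain ⟨a, _, h⟩ := hpar i
    have h1 := tf_sum a
    rwa [tf_eq a (p i) (hp i) h] at h1
  have hmon : Monotone p := by
    intro i j hij
    refine e.monotone ?_
    rw [Fin.mk_le_mk]
    exact min_le_min_right _ hij
  obtain ⟨a0, ha0, hpa⟩ := hpar (n - 1)
  have hs' : ∀ N : ℕ, ∀ y ∈ box d N, ∀ j, ∑ z ∈ box d N, wh w (z - y) * (M d).real
      {ω | (opn (conf (p (n - 1)) ω)).Reachable y z ∧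
        2 ^ j ≤ (Bx (box d N) (p (n - 1)) ω y).card} ≤ s a0 j := by
    rw [← hpa]
    exact hs a0 ha0
  have hI := lim_max hw p hmon hp hsum (n - 1) (s a0) hs' K (hK a0 ha0)
  set R := Finset.range (n - 1 + 1) with hR
  have hne : R.Nonempty := ⟨0, Finset.mem_range.2 (Nat.succ_pos _)⟩
  set g : (Fin d → ℝ) → ℝ := fun k => R.sup' hne (fun i => cs (tau d (p i) (hp i)) k) with hg
  have hcsc : ∀ i, Continuous (cs (tau d (p i) (hp i))) := fun i =>
    cs_cont _ (by simp_rw [fun x => abs_of_nonneg (tau_nonneg (p i) (hp i) x)]; exact hsum i)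
  have hgc : Continuous g := Continuous.finset_sup'_apply hne fun i _ => hcsc i
  refine ⟨g, hgc, fun k => ?_, ?_, hI⟩
  · refine (hat_nonneg (p 0) (hp 0) (hsum 0) k).trans ?_
    exact Finset.le_sup' (fun i => cs (tau d (p i) (hp i)) k) (Finset.mem_range.2 (Nat.succ_pos _))
  · intro a ha k
    have h1 : a.1 ∈ Q := Finset.mem_image_of_mem _ ha
    have h2 : a.1 ∈ Set.range e := by
      rw [he, Finset.range_orderEmbOfFin]; exact h1
    obtain ⟨i, hi⟩ := h2
    have h3 : p i = a.1 := by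
      have : min (i : ℕ) (n - 1) = i := by have := i.2; omega
      simp only [hpdef, this]
      exact hi
    have h4 : cs (tf a) k = cs (tau d (p i) (hp i)) k := by
      rw [tf_eq a (p i) (hp i) h3.symm]
    rw [h4]
    exact Finset.le_sup' (fun i => cs (tau d (p i) (hp i)) k)
      (Finset.mem_range.2 (by have := i.2; omega))

/-- a majorant for all parameters with susceptibility at most `X` -/
theorem maj_all {w : (Fin d → ℝ) → ℝ} (hw : Wt w) (X : ℝ) (s : Par d → ℕ → ℝ)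
    (hs : ∀ a : Par d, ch a ≤ X → ∀ N : ℕ, ∀ y ∈ box d N, ∀ j,
      ∑ z ∈ box d N, wh w (z - y) * (M d).real
      {ω | (opn (conf a.1 ω)).Reachable y z ∧ 2 ^ j ≤ (Bx (box d N) a.1 ω y).card} ≤ s a j)
    (K : ℝ) (hK0 : 0 ≤ K) (hK : ∀ a : Par d, ch a ≤ X →
      ∀ J : ℕ, ∑ j ∈ Finset.range J, ((j : ℝ) + 1) ^ 2 * s a j ≤ K) :
    ∃ g : (Fin d → ℝ) → ℝ, Continuous g ∧ (∀ k, 0 ≤ g k) ∧
      (∀ a : Par d, ch a ≤ X → ∀ k, cs (tf a) k ≤ g k + 1) ∧
      ∫ k in cube d, w k * g k ≤ 2 * K := by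
  classical
  let E : ℕ → Par d → Prop := fun j a => (j : ℝ) ≤ ch a ∧ ch a ≤ j + 1 ∧ ch a ≤ X
  set A : Finset (Par d) := ((Finset.range (⌊X⌋₊ + 1)).filter (fun j => ∃ a, E j a)).attach.image
    (fun j => (Finset.mem_filter.1 j.2).2.choose) with hA
  have hAX : ∀ a ∈ A, ch a ≤ X := by
    intro a ha
    rw [hA, Finset.mem_image] at ha
    obtain ⟨j, _, rfl⟩ := ha
    exact (Finset.mem_filter.1 j.2).2.choose_spec.2.2
  obtain ⟨g, hg1, hg2, hg3, hg4⟩ := maj_fin hw A s (fun a ha => hs a (hAX a ha)) K hK0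
    (fun a ha => hK a (hAX a ha))
  refine ⟨g, hg1, hg2, fun a ha k => ?_, hg4⟩
  have hc1 := ch_ge a
  have hj1 : (⌊ch a⌋₊ : ℝ) ≤ ch a := Nat.floor_le (by linarith)
  have hj2 : ch a ≤ (⌊ch a⌋₊ : ℝ) + 1 := (Nat.lt_floor_add_one _).le
  have hex : ∃ b : Par d, E ⌊ch a⌋₊ b := ⟨a, hj1, hj2, ha⟩
  have hmem : ⌊ch a⌋₊ ∈ (Finset.range (⌊X⌋₊ + 1)).filter (fun j => ∃ a, E j a) := by
    rw [Finset.mem_filter, Finset.mem_range, Nat.lt_succ_iff]
    exact ⟨Nat.floor_le_floor ha, hex⟩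
  have hbA : (Finset.mem_filter.1 hmem).2.choose ∈ A :=
    Finset.mem_image.2 ⟨⟨_, hmem⟩, Finset.mem_attach _ _, rfl⟩
  have h4 := hg3 _ hbA k
  obtain ⟨h1, h2, h3⟩ := (Finset.mem_filter.1 hmem).2.choose_spec
  set b := (Finset.mem_filter.1 hmem).2.choose with hb
  have hclose : |cs (tf a) k - cs (tf b) k| ≤ 1 := by
    rcases le_total (ch a) (ch b) with h | h
    · rw [abs_sub_comm]
      exact (cs_diff h k).trans (by linarith)
    · exact (cs_diff h k).trans (by linarith)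
  have := (abs_le.1 hclose).2
  linarith

end Run7.h976.IR
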