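import Pool.Agent.Run7.h976.IR.Tail

/-!
The majorants of `G_p(k)` over all parameters with bounded susceptibility.
-/

set_option autoImplicit false

namespace Run7.h976.IR

open MeasureTheory Filter Topology
open Pool.Agent.Results.MP_54f242_pr.InfraredMean

variable {d : ℕ}

theorem ch_eq (a : Par d) : ch a = chi d a.1 a.2.choose := rfl

/-- the majorant for the Fejér weight of order `n` -/
theorem maj_n (n : ℕ) (hn : 1 ≤ n) (X b : ℝ) (hb1 : 1 ≤ b) (J : ℕ)
    (hJ : (2 * (n : ℝ) - 1) ^ d * X ≤ 2 ^ J)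
    (hb : ∀ a : Par d, ch a ≤ X → ∑ x ∈ sbox d n, tf a x ≤ b) :
    ∃ g : (Fin d → ℝ) → ℝ, Continuous g ∧ (∀ k, 0 ≤ g k) ∧
      (∀ a : Par d, ch a ≤ X → ∀ k, cs (tf a) k ≤ g k + 1) ∧
      ∫ k in cube d, fw d n k * g k ≤ 26 * (2 * Real.pi) ^ d * ((J : ℝ) + 1) ^ 3 * b := by
  have hpi : (0 : ℝ) ≤ (2 * Real.pi) ^ d := by positivity
  have hS : (0 : ℝ) ≤ (2 * Real.pi) ^ d * b := by positivity
  obtain ⟨g, h1, h2, h3, h4⟩ := maj_all (fw_wt n) X
    (fun _ j => (2 * Real.pi) ^ d * b * min 1 ((2 : ℝ) ^ J / 2 ^ j))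
    (fun a ha N y _ j => by
      obtain ⟨e1, e2⟩ := sj_le (fw_wt n) (sbox d n) (wh_zero n) ((2 * Real.pi) ^ d) hpi
        (wh_le n hn) a.1 a.2.choose (box d N) y (2 ^ j)
      have hm := markov (box d N) a.1 a.2.choose a.2.choose_spec y (2 ^ j)
      rw [mul_min_of_nonneg _ _ hS, mul_one]
      refine le_min (e1.trans (mul_le_mul_of_nonneg_left (hb a ha) hpi)) (e2.trans ?_)
      rw [sbox_card n hn]
      have h2j : (0 : ℝ) < 2 ^ j := by positivity
      have h5 : (M d).real {ω | 2 ^ j ≤ (Bx (box d N) a.1 ω y).card} ≤ X / 2 ^ j := by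
        rw [le_div_iff₀ h2j, mul_comm]
        push_cast at hm
        exact hm.trans ha
      have hn1 : (0 : ℝ) ≤ 2 * (n : ℝ) - 1 := by
        have : (1 : ℝ) ≤ n := by exact_mod_cast hn
        linarith
      calc (2 * Real.pi) ^ d * (2 * (n : ℝ) - 1) ^ d *
            (M d).real {ω | 2 ^ j ≤ (Bx (box d N) a.1 ω y).card}
          ≤ (2 * Real.pi) ^ d * (2 * (n : ℝ) - 1) ^ d * (X / 2 ^ j) :=
            mul_le_mul_of_nonneg_left h5 (mul_nonneg hpi (pow_nonneg hn1 d))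
        _ = (2 * Real.pi) ^ d * (((2 * (n : ℝ) - 1) ^ d * X) / 2 ^ j) := by ring
        _ ≤ (2 * Real.pi) ^ d * ((2 : ℝ) ^ J / 2 ^ j) :=
            mul_le_mul_of_nonneg_left (div_le_div_of_nonneg_right hJ h2j.le) hpi
        _ ≤ (2 * Real.pi) ^ d * b * ((2 : ℝ) ^ J / 2 ^ j) := by
            refine mul_le_mul_of_nonneg_right (le_mul_of_one_le_right hpi hb1) (by positivity))
    (13 * ((J : ℝ) + 1) ^ 3 * ((2 * Real.pi) ^ d * b)) (by positivity)
    (fun _ _ L => dy_sum _ hS J L)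
  exact ⟨g, h1, h2, h3, h4.trans (le_of_eq (by ring))⟩

theorem D_range (k : Fin d → ℝ) : 0 ≤ 1 - Dhat k ∧ 1 - Dhat k ≤ 2 := by
  have := abs_le.1 (Dhat_le k)
  constructor <;> linarith

theorem G_cs (p : NNReal) (hp : p ≤ 1) (k : Fin d → ℝ) :
    G d p hp k = cs (tau d p hp) k * (1 - Dhat k) := rfl

theorem par_of (p : NNReal) (hp : p ≤ 1) (hs : Summable (tau d p hp)) :
    ∃ a : Par d, tf a = tau d p hp ∧ ch a = chi d p hp := ⟨⟨p, hp, hs⟩, rfl, rfl⟩

theorem cube_real : volume.real (cube d) = (2 * Real.pi) ^ d := by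
  rw [Measure.real, cube_vol, ENNReal.toReal_ofReal (by positivity)]

theorem sbox_one (f : (Fin d → ℤ) → ℝ) : ∑ x ∈ sbox d 1, f x = f 0 := by
  have : sbox d 1 = {0} := by
    ext x
    rw [sbox, Fintype.mem_piFinset, Finset.mem_singleton]
    constructor
    · intro h
      funext i
      have := h i
      rw [Finset.mem_Ioo] at this
      simp only [Pi.zero_apply]
      push_cast at this
      omega
    · rintro rfl i
      simp
  rw [this, Finset.sum_singleton]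

/-- from a majorant of the transform to a majorant of `G` on the cube -/
theorem G_maj (X R : ℝ) (h : ∃ g : (Fin d → ℝ) → ℝ, Continuous g ∧ (∀ k, 0 ≤ g k) ∧
      (∀ a : Par d, ch a ≤ X → ∀ k, cs (tf a) k ≤ g k + 1) ∧
      ∫ k in cube d, g k ≤ R * (2 * Real.pi) ^ d) :
    ∃ g : (Fin d → ℝ) → ℝ, Continuous g ∧ (∀ k, 0 ≤ g k) ∧
      (∀ (p : NNReal) (hp : p ≤ 1), Summable (tau d p hp) → chi d p hp ≤ X → ∀ k,
        G d p hp k ≤ g k) ∧
      ∫ k in cube d, g k ≤ (2 * R + 2) * volume.real (cube d) := by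
  obtain ⟨g, h1, h2, h3, h4⟩ := h
  refine ⟨fun k => 2 * (g k + 1), continuous_const.mul (h1.add continuous_const),
    fun k => by have := h2 k; linarith, ?_, ?_⟩
  · intro p hp hs hχ k
    obtain ⟨a, ha1, ha2⟩ := par_of p hp hs
    have h5 := h3 a (ha2.trans_le hχ) k
    rw [ha1] at h5
    rw [G_cs]
    have h6 := hat_nonneg p hp hs k
    have h7 := D_range k
    have h8 : 0 ≤ cs (tau d p hp) k := h6
    nlinarith
  · rw [integral_const_mul, integral_add (integrable_of_cont h1)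
      (integrable_of_cont continuous_const), setIntegral_const, cube_real, smul_eq_mul]
    linarith

/-- the majorant on the cube -/
theorem maj_cube (X : ℝ) (J : ℕ) (hJ : X ≤ 2 ^ J) :
    ∃ g : (Fin d → ℝ) → ℝ, Continuous g ∧ (∀ k, 0 ≤ g k) ∧
      (∀ (p : NNReal) (hp : p ≤ 1), Summable (tau d p hp) → chi d p hp ≤ X → ∀ k,
        G d p hp k ≤ g k) ∧
      ∫ k in cube d, g k ≤ 54 * ((J : ℝ) + 1) ^ 3 * volume.real (cube d) := by
  obtain ⟨g, h1, h2, h3, h4⟩ := maj_n (d := d) 1 le_rfl X 1 le_rfl J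
    (by norm_num; exact hJ) (fun a _ => by
      rw [sbox_one]
      exact tf_le_one a 0)
  simp_rw [fw_one, one_mul, mul_one] at h4
  obtain ⟨g', k1, k2, k3, k4⟩ := G_maj X (26 * ((J : ℝ) + 1) ^ 3)
    ⟨g, h1, h2, h3, h4.trans (le_of_eq (by ring))⟩
  refine ⟨g', k1, k2, k3, k4.trans ?_⟩
  refine mul_le_mul_of_nonneg_right ?_ measureReal_nonneg
  have : (1 : ℝ) ≤ ((J : ℝ) + 1) ^ 3 := one_le_pow₀ (by
    have : (0 : ℝ) ≤ J := Nat.cast_nonneg J
    linarith)
  linarith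

/-- the majorant under a bound of the tails -/
theorem maj_tail (X K : ℝ) (hK0 : 0 ≤ K)
    (hK : ∀ (p : NNReal) (hp : p ≤ 1), Summable (tau d p hp) → ∀ J : ℕ,
      ∑ j ∈ Finset.range J, ((j : ℝ) + 1) ^ 2 * tail d p hp (2 ^ j) ≤ K) :
    ∃ g : (Fin d → ℝ) → ℝ, Continuous g ∧ (∀ k, 0 ≤ g k) ∧
      (∀ (p : NNReal) (hp : p ≤ 1), Summable (tau d p hp) → chi d p hp ≤ X → ∀ k,
        G d p hp k ≤ g k) ∧
      ∫ k in cube d, g k ≤ (4 * K + 2) * volume.real (cube d) := by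
  have hpi : (0 : ℝ) ≤ (2 * Real.pi) ^ d := by positivity
  obtain ⟨g, h1, h2, h3, h4⟩ := maj_all (d := d) (fw_wt 1) X
    (fun a j => (2 * Real.pi) ^ d * tail d a.1 a.2.choose (2 ^ j))
    (fun a _ N y _ j => by
      obtain ⟨_, e2⟩ := sj_le (fw_wt 1) (sbox d 1) (wh_zero 1) ((2 * Real.pi) ^ d) hpi
        (wh_le 1 le_rfl) a.1 a.2.choose (box d N) y (2 ^ j)
      refine e2.trans ?_
      rw [sbox_card 1 le_rfl]
      have e3 : ((2 * (((1 : ℕ) : ℝ)) - 1) ^ d) = 1 := by norm_num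
      rw [e3, mul_one]
      exact mul_le_mul_of_nonneg_left (card_tail _ _ _ _ _) hpi)
    ((2 * Real.pi) ^ d * K) (mul_nonneg hpi hK0)
    (fun a _ J => by
      have := mul_le_mul_of_nonneg_left (hK a.1 a.2.choose a.2.choose_spec J) hpi
      rw [Finset.mul_sum] at this
      refine le_trans (le_of_eq ?_) this
      exact Finset.sum_congr rfl fun j _ => by ring)
  simp_rw [fw_one, one_mul] at h4
  obtain ⟨g', k1, k2, k3, k4⟩ := G_maj X (2 * K)
    ⟨g, h1, h2, h3, h4.trans (le_of_eq (by ring))⟩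
  exact ⟨g', k1, k2, k3, k4.trans (le_of_eq (by ring))⟩

/-- the box `|k_i| ≤ 1 / (d n)` -/
def Qn (d n : ℕ) : Set (Fin d → ℝ) := {k | ∀ i, |k i| ≤ 1 / ((d : ℝ) * n)}

theorem Qn_eq (n : ℕ) : Qn d n = Set.pi Set.univ
    (fun _ : Fin d => Set.Icc (-(1 / ((d : ℝ) * n))) (1 / ((d : ℝ) * n))) := by
  ext k
  simp only [Qn, Set.mem_ofPred_eq, Set.mem_univ_pi, Set.mem_Icc, abs_le]

theorem Qn_meas (n : ℕ) : MeasurableSet (Qn d n) := by
  rw [Qn_eq]
  exact MeasurableSet.univ_pi fun _ => measurableSet_Icc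

theorem Qn_real (n : ℕ) : volume.real (Qn d n) = (2 / ((d : ℝ) * n)) ^ d := by
  rw [Qn_eq, Measure.real, volume_pi_pi]
  simp only [Real.volume_Icc, Finset.prod_const, Finset.card_univ, Fintype.card_fin]
  rw [ENNReal.toReal_pow, ENNReal.toReal_ofReal]
  · congr 1; ring
  · have : (0 : ℝ) ≤ 1 / ((d : ℝ) * n) := by positivity
    linarith

theorem Qn_sub (hd : 1 ≤ d) (n : ℕ) (hn : 1 ≤ n) : Qn d n ⊆ cube d := by
  intro k hk
  rw [cube, Set.mem_univ_pi]
  intro i
  have h1 : 1 / ((d : ℝ) * n) ≤ 1 := by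
    have h2 : (1 : ℝ) ≤ (d : ℝ) * n := by
      have : 1 ≤ d * n := Nat.one_le_iff_ne_zero.2 (by positivity)
      exact_mod_cast this
    rw [div_le_one (by linarith)]
    exact h2
  have h3 := abs_le.1 ((hk i).trans h1)
  have h4 := Real.pi_gt_three
  exact ⟨by linarith, by linarith⟩

/-- the majorant near the origin -/
theorem maj_loc (hd : 1 ≤ d) (n : ℕ) (hn : 1 ≤ n) (X b : ℝ) (hb1 : 1 ≤ b) (J : ℕ)
    (hJ : (2 * (n : ℝ)) ^ d * X ≤ 2 ^ J) (hX : 0 ≤ X)
    (hb : ∀ a : Par d, ch a ≤ X → ∑ x ∈ sbox d n, tf a x ≤ b) :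
    ∃ g : (Fin d → ℝ) → ℝ, Continuous g ∧ (∀ k, 0 ≤ g k) ∧
      (∀ (p : NNReal) (hp : p ≤ 1), Summable (tau d p hp) → chi d p hp ≤ X → ∀ k ∈ Qn d n,
        G d p hp k ≤ g k) ∧
      ∫ k in Qn d n, g k ≤ 53 * (Real.pi * d) ^ d * ((J : ℝ) + 1) ^ 3 * (b / ((d : ℝ) * n) ^ 2) *
        volume.real (Qn d n) := by
  have hd0 : (0 : ℝ) < d := by exact_mod_cast hd
  have hn0 : (0 : ℝ) < n := by exact_mod_cast hn
  have hn1 : (1 : ℝ) ≤ n := by exact_mod_cast hn
  have hJ' : (2 * (n : ℝ) - 1) ^ d * X ≤ 2 ^ J := by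
    refine le_trans (mul_le_mul_of_nonneg_right ?_ hX) hJ
    exact pow_le_pow_left₀ (by linarith) (by linarith) d
  obtain ⟨g, h1, h2, h3, h4⟩ := maj_n (d := d) n hn X b hb1 J hJ' hb
  refine ⟨fun k => (g k + 1) * (1 / (2 * ((d : ℝ) * n) ^ 2)),
    (h1.add continuous_const).mul continuous_const,
    fun k => mul_nonneg (by have := h2 k; linarith) (by positivity), ?_, ?_⟩
  · intro p hp hs hχ k hk
    obtain ⟨a, ha1, ha2⟩ := par_of p hp hs
    have h5 := h3 a (ha2.trans_le hχ) k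
    rw [ha1] at h5
    rw [G_cs]
    have h7 : 1 - Dhat k ≤ 1 / (2 * ((d : ℝ) * n) ^ 2) := by
      have h8 : ∀ i ∈ (Finset.univ : Finset (Fin d)),
          1 - (1 / ((d : ℝ) * n)) ^ 2 / 2 ≤ Real.cos (k i) := by
        intro i _
        have h9 := Real.one_sub_sq_div_two_le_cos (x := k i)
        have h10 : k i ^ 2 ≤ (1 / ((d : ℝ) * n)) ^ 2 := by
          rw [← sq_abs]
          exact pow_le_pow_left₀ (abs_nonneg _) (hk i) 2
        linarith
      have h11 := Finset.sum_le_sum h8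
      rw [Finset.sum_const, Finset.card_univ, Fintype.card_fin, nsmul_eq_mul] at h11
      have h12 : 1 - (1 / ((d : ℝ) * n)) ^ 2 / 2 ≤ Dhat k := by
        rw [Dhat, div_mul_eq_mul_div, one_mul, le_div_iff₀ hd0, mul_comm]
        exact h11
      have h13 : (1 / ((d : ℝ) * n)) ^ 2 / 2 = 1 / (2 * ((d : ℝ) * n) ^ 2) := by
        field_simp
      linarith
    have h6 : 0 ≤ cs (tau d p hp) k := hat_nonneg p hp hs k
    exact mul_le_mul h5 h7 (D_range k).1 (by linarith)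
  · have hsub := Qn_sub hd n hn
    have hgI : IntegrableOn g (Qn d n) volume := (integrable_of_cont h1).mono_measure
      (Measure.restrict_mono hsub le_rfl)
    have hfg : Integrable (fun k => fw d n k * g k) (volume.restrict (cube d)) :=
      integrable_of_cont ((fw_cont n).mul h1)
    have hfgQ : IntegrableOn (fun k => fw d n k * g k) (Qn d n) volume := hfg.mono_measure
      (Measure.restrict_mono hsub le_rfl)
    have hnd : (0 : ℝ) < (n : ℝ) ^ d := by positivity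
    have h5 : (n : ℝ) ^ d / 4 * ∫ k in Qn d n, g k ≤ ∫ k in Qn d n, fw d n k * g k := by
      rw [← integral_const_mul]
      refine setIntegral_mono_on (hgI.const_mul _) hfgQ (Qn_meas n) fun k hk => ?_
      exact mul_le_mul_of_nonneg_right (fw_large hd n hn k hk) (h2 k)
    have h6 : ∫ k in Qn d n, fw d n k * g k ≤ ∫ k in cube d, fw d n k * g k :=
      setIntegral_mono_set hfg (Eventually.of_forall fun k =>
        mul_nonneg ((fw_wt n).nn k) (h2 k)) (HasSubset.Subset.eventuallyLE hsub)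
    have h7 := (h5.trans h6).trans h4
    have hvol := Qn_real (d := d) n
    have hfin : volume (Qn d n) ≠ ⊤ := ne_top_of_le_ne_top cube_fin.ne (measure_mono hsub)
    have h8 : ∫ k in Qn d n, g k ≤ 104 * (Real.pi * d) ^ d * ((J : ℝ) + 1) ^ 3 * b *
        volume.real (Qn d n) := by
      have e1 : 26 * (2 * Real.pi) ^ d * ((J : ℝ) + 1) ^ 3 * b =
          (n : ℝ) ^ d / 4 * (104 * (Real.pi * d) ^ d * ((J : ℝ) + 1) ^ 3 * b *
            volume.real (Qn d n)) := by
        rw [hvol, div_pow, mul_pow, mul_pow, mul_pow]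
        field_simp
        ring
      rw [e1] at h7
      exact le_of_mul_le_mul_left h7 (by positivity)
    rw [integral_mul_const, integral_add hgI (integrableOn_const hfin), setIntegral_const,
      smul_eq_mul, mul_one]
    have hv0 : 0 ≤ volume.real (Qn d n) := measureReal_nonneg
    have hpd : (1 : ℝ) ≤ (Real.pi * d) ^ d := by
      refine one_le_pow₀ ?_
      have h9 := Real.pi_gt_three
      have h10 : (1 : ℝ) ≤ d := by exact_mod_cast hd
      nlinarith
    have hJ1 : (1 : ℝ) ≤ ((J : ℝ) + 1) ^ 3 := one_le_pow₀ (by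
      have : (0 : ℝ) ≤ J := Nat.cast_nonneg J
      linarith)
    have hone : (1 : ℝ) ≤ (Real.pi * d) ^ d * ((J : ℝ) + 1) ^ 3 * b := by
      have := mul_le_mul (mul_le_mul hpd hJ1 zero_le_one (by positivity)) hb1 zero_le_one
        (by positivity)
      simpa using this
    have h14 : (∫ k in Qn d n, g k) + volume.real (Qn d n) ≤
        106 * ((Real.pi * d) ^ d * ((J : ℝ) + 1) ^ 3 * b) * volume.real (Qn d n) := by
      have h15 := mul_le_mul_of_nonneg_right hone hv0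
      have h16 : 0 ≤ (Real.pi * d) ^ d * ((J : ℝ) + 1) ^ 3 * b * volume.real (Qn d n) := by
        positivity
      linarith
    have h17 : (0 : ℝ) ≤ 1 / (2 * ((d : ℝ) * n) ^ 2) := by positivity
    refine (mul_le_mul_of_nonneg_right h14 h17).trans (le_of_eq ?_)
    field_simp
    ring

end Run7.h976.IR
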