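import Pool.Agent.Run7.h976.IR.Cl

/-!
The maximal inequality over the parameter, in boxes and in the limit.
-/

set_option autoImplicit false

namespace Run7.h976.IR

open MeasureTheory Filter Topology
open Pool.Agent.Results.MP_54f242_pr.InfraredMean

section general

variable {Ω S : Type*} [MeasurableSpace Ω] (μ : Measure Ω) [IsProbabilityMeasure μ]

omit [MeasurableSpace Ω] in
theorem fin_eq (X : Ω → S) (C : Finset S) (hX : ∀ ω, X ω ∈ C) (g : S → ℝ) (ω : Ω) :
    g (X ω) = ∑ c ∈ C, Set.indicator {ω | X ω = c} (fun _ => g c) ω := by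
  classical
  rw [Finset.sum_eq_single (X ω)]
  · simp
  · intro b _ hb
    exact Set.indicator_of_notMem (fun h => hb h.symm) _
  · intro h; exact absurd (hX ω) h

theorem fin_int (X : Ω → S) (C : Finset S) (hX : ∀ ω, X ω ∈ C)
    (hm : ∀ c, MeasurableSet {ω | X ω = c}) (g : S → ℝ) : Integrable (fun ω => g (X ω)) μ := by
  simp_rw [fin_eq X C hX g]
  exact integrable_finsetSum _ fun c _ => (integrable_const _).indicator (hm c)

theorem fin_exp (X : Ω → S) (C : Finset S) (hX : ∀ ω, X ω ∈ C)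
    (hm : ∀ c, MeasurableSet {ω | X ω = c}) (g : S → ℝ) :
    ∫ ω, g (X ω) ∂μ = ∑ c ∈ C, μ.real {ω | X ω = c} * g c := by
  simp_rw [fin_eq X C hX g]
  rw [integral_finsetSum _ (fun c _ => (integrable_const _).indicator (hm c))]
  refine Finset.sum_congr rfl fun c _ => ?_
  rw [integral_indicator_const _ (hm c), smul_eq_mul]

end general

variable {d : ℕ}

theorem Bx_mem (Λ : Finset (Fin d → ℤ)) (p : NNReal) (ω : Ed d → unitInterval)
    (x : Fin d → ℤ) : Bx Λ p ω x ∈ Λ.powerset := by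
  classical
  rw [Finset.mem_powerset]
  exact Finset.filter_subset _ _

theorem card_meas (Λ : Finset (Fin d → ℤ)) (p : NNReal) (x : Fin d → ℤ) (n : ℕ) :
    MeasurableSet {ω | n ≤ (Bx Λ p ω x).card} := by
  have e : {ω | n ≤ (Bx Λ p ω x).card} =
      ⋃ B ∈ Λ.powerset.filter (fun B => n ≤ B.card), {ω | Bx Λ p ω x = B} := by
    ext ω
    simp only [Set.mem_ofPred_eq, Set.mem_iUnion, Finset.mem_filter, exists_prop]
    constructor
    · intro h; exact ⟨_, ⟨Bx_mem Λ p ω x, h⟩, rfl⟩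
    · rintro ⟨B, ⟨_, h⟩, rfl⟩; exact h
  rw [e]
  exact Finset.measurableSet_biUnion _ fun B _ => Bx_meas Λ p x B

/-- the chain of the parts of the cluster of `x` in `Λ` -/
noncomputable def Xc (Λ : Finset (Fin d → ℤ)) (p : ℕ → NNReal) (m : ℕ) (x : Fin d → ℤ)
    (ω : Ed d → unitInterval) : Fin (m + 1) → Finset (Fin d → ℤ) := fun i => Bx Λ (p i) ω x

theorem Xc_meas (Λ : Finset (Fin d → ℤ)) (p : ℕ → NNReal) (m : ℕ) (x : Fin d → ℤ)
    (c : Fin (m + 1) → Finset (Fin d → ℤ)) : MeasurableSet {ω | Xc Λ p m x ω = c} := by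
  have e : {ω | Xc Λ p m x ω = c} = ⋂ i : Fin (m + 1), {ω | Bx Λ (p i) ω x = c i} := by
    ext ω
    simp only [Set.mem_ofPred_eq, Set.mem_iInter]
    exact funext_iff
  rw [e]
  exact MeasurableSet.iInter fun i => Bx_meas Λ _ x _

/-- the chain indexed by `ℕ` -/
def ext {V : Type*} {m : ℕ} (c : Fin (m + 1) → Finset V) (i : ℕ) : Finset V :=
  c ⟨min i m, by omega⟩

/-- a nonempty chain -/
def IsCh {V : Type*} {m : ℕ} (c : Fin (m + 1) → Finset V) : Prop :=
  (∀ i, i < m → ext c i ⊆ ext c (i + 1)) ∧ (ext c 0).Nonempty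

open Classical in
/-- the majorant of a chain -/
noncomputable def Vf {w : (Fin d → ℝ) → ℝ} (hw : Wt w) {m : ℕ}
    (c : Fin (m + 1) → Finset (Fin d → ℤ)) : (Fin d → ℝ) → ℝ :=
  if h : IsCh c then (RM hw m (ext c) h.1 h.2).choose else fun _ => 0

/-- the bound of the weighted integral of the majorant -/
noncomputable def Ps (w : (Fin d → ℝ) → ℝ) (B : ℕ → Finset (Fin d → ℤ)) (m J : ℕ) : ℝ :=
  ∑ j ∈ Finset.range J, (if 2 ^ j ≤ (top B (2 ^ (j + 1)) m).card then
    2 * ((j : ℝ) + 1) ^ 2 * (Qw w (top B (2 ^ (j + 1)) m) /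
      (top B (2 ^ (j + 1)) m).card) else 0)

theorem Ps_mono {w : (Fin d → ℝ) → ℝ} (hw : Wt w) (B : ℕ → Finset (Fin d → ℤ)) (m : ℕ)
    {J J' : ℕ} (h : J ≤ J') : Ps w B m J ≤ Ps w B m J' := by
  unfold Ps
  refine Finset.sum_le_sum_of_subset_of_nonneg (Finset.range_mono h) fun j _ _ => ?_
  split_ifs
  · exact mul_nonneg (by positivity) (div_nonneg (Qw_nonneg hw _) (Nat.cast_nonneg _))
  · exact le_rfl

theorem Vf_cont {w : (Fin d → ℝ) → ℝ} (hw : Wt w) {m : ℕ}
    (c : Fin (m + 1) → Finset (Fin d → ℤ)) : Continuous (Vf hw c) := by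
  unfold Vf
  split_ifs with h
  · exact (RM hw m (ext c) h.1 h.2).choose_spec.1
  · exact continuous_const

theorem Vf_int {w : (Fin d → ℝ) → ℝ} (hw : Wt w) {m : ℕ}
    (c : Fin (m + 1) → Finset (Fin d → ℤ)) {J : ℕ} (hJ : (ext c m).card < 2 ^ J) :
    ∫ k in cube d, w k * Vf hw c k ≤ Ps w (ext c) m J := by
  have hlog : Nat.log 2 (ext c m).card + 1 ≤ max J 1 := by
    rcases Nat.eq_zero_or_pos (ext c m).card with h0 | h0
    · rw [h0]; simp
    · have h1 := Nat.pow_log_le_self 2 h0.ne'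
      have h2 := (Nat.pow_lt_pow_iff_right (by norm_num : 1 < 2)).1 (h1.trans_lt hJ)
      exact le_max_of_le_left h2
  unfold Vf
  split_ifs with h
  · have h1 := (RM hw m (ext c) h.1 h.2).choose_spec.2.2.2
    refine h1.trans ?_
    have hpos : 0 < (ext c m).card :=
      (h.2.mono (chain_sub (ext c) m h.1 0 (Nat.zero_le _))).card_pos
    have hJ1 : 1 ≤ J := by
      by_contra hc
      have : J = 0 := by omega
      rw [this, pow_zero] at hJ
      omega
    have h2 : Nat.log 2 (ext c m).card + 1 ≤ J := by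
      rw [max_eq_left hJ1] at hlog
      exact hlog
    exact Ps_mono hw (ext c) m h2
  · simp only [mul_zero, integral_zero]
    have := Ps_mono hw (ext c) m (Nat.zero_le J)
    simpa [Ps] using this

theorem Vf_le {w : (Fin d → ℝ) → ℝ} (hw : Wt w) {m : ℕ} (c : Fin (m + 1) → Finset (Fin d → ℤ))
    (h : IsCh c) (i : ℕ) (hi : i ≤ m) (k : Fin d → ℝ) :
    nB (ext c i) k / (ext c i).card ≤ Vf hw c k := by
  unfold Vf
  rw [dif_pos h]
  exact (RM hw m (ext c) h.1 h.2).choose_spec.2.2.1 i hi k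

theorem Xc_ch (Λ : Finset (Fin d → ℤ)) (p : ℕ → NNReal) (hmon : Monotone p) (m : ℕ)
    {x : Fin d → ℤ} (hx : x ∈ Λ) (ω : Ed d → unitInterval) : IsCh (Xc Λ p m x ω) := by
  refine ⟨fun i hi => ?_, ⟨x, Bx_self Λ _ ω hx⟩⟩
  exact Bx_mono Λ (hmon (by simp only; omega)) ω x

theorem Xc_ext (Λ : Finset (Fin d → ℤ)) (p : ℕ → NNReal) (m : ℕ) (x : Fin d → ℤ)
    (ω : Ed d → unitInterval) {i : ℕ} (hi : i ≤ m) : ext (Xc Λ p m x ω) i = Bx Λ (p i) ω x := by
  unfold ext Xc
  simp only [min_eq_left hi]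

theorem top_congr (B B' : ℕ → Finset (Fin d → ℤ)) (n : ℕ) : ∀ m, (∀ i ≤ m, B i = B' i) →
    top B n m = top B' n m
  | 0, h => by unfold top; rw [h 0 le_rfl]
  | m + 1, h => by
    unfold top
    rw [h (m + 1) le_rfl, top_congr B B' n m (fun i hi => h i (by omega))]

theorem Ps_congr (w : (Fin d → ℝ) → ℝ) (B B' : ℕ → Finset (Fin d → ℤ)) (m J : ℕ)
    (h : ∀ i ≤ m, B i = B' i) : Ps w B m J = Ps w B' m J := by
  unfold Ps
  simp_rw [top_congr B B' _ m h]

theorem top_sub_last (B : ℕ → Finset (Fin d → ℤ)) (n m : ℕ) (hB : ∀ i, i < m → B i ⊆ B (i + 1)) :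
    top B n m ⊆ B m := by
  rcases top_cases B n m with h | ⟨i, hi, h⟩
  · rw [h]; exact Finset.empty_subset _
  · rw [h]; exact chain_sub B m hB i hi

theorem top_eq (Λ : Finset (Fin d → ℤ)) (p : ℕ → NNReal) (hmon : Monotone p)
    (ω : Ed d → unitInterval) (n : ℕ) (x y : Fin d → ℤ) : ∀ m,
    y ∈ top (fun i => Bx Λ (p i) ω x) n m →
    top (fun i => Bx Λ (p i) ω y) n m = top (fun i => Bx Λ (p i) ω x) n m
  | 0, hy => by
    unfold top at hy ⊢
    split_ifs at hy with h
    · rw [Bx_eq Λ (p 0) ω hy]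
    · simp at hy
  | m + 1, hy => by
    unfold top at hy ⊢
    split_ifs at hy with h
    · rw [Bx_eq Λ (p (m + 1)) ω hy, if_pos h, if_pos h]
    · have h1 : y ∈ Bx Λ (p (m + 1)) ω x :=
        Bx_mono Λ (hmon (Nat.le_succ m)) ω x
          (top_sub_last (fun i => Bx Λ (p i) ω x) n m
            (fun i _ => Bx_mono Λ (hmon (Nat.le_succ i)) ω x) hy)
      rw [Bx_eq Λ (p (m + 1)) ω h1, if_neg h, if_neg h]
      exact top_eq Λ p hmon ω n x y m hy

theorem top_mem (Λ : Finset (Fin d → ℤ)) (p : ℕ → NNReal)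
    (ω : Ed d → unitInterval) (n m : ℕ) {x : Fin d → ℤ} (hx : x ∈ Λ)
    (h : (top (fun i => Bx Λ (p i) ω x) n m).Nonempty) :
    x ∈ top (fun i => Bx Λ (p i) ω x) n m := by
  rcases top_cases (fun i => Bx Λ (p i) ω x) n m with h1 | ⟨i, hi, h1⟩
  · rw [h1] at h; simp at h
  · rw [h1]; exact Bx_self Λ _ ω hx

/-- double counting over the top clusters -/
theorem dc {w : (Fin d → ℝ) → ℝ} (hw : Wt w) (Λ : Finset (Fin d → ℤ)) (p : ℕ → NNReal)
    (hmon : Monotone p) (ω : Ed d → unitInterval) (n m L : ℕ) :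
    ∑ x ∈ Λ, (if L ≤ (top (fun i => Bx Λ (p i) ω x) n m).card then
      Qw w (top (fun i => Bx Λ (p i) ω x) n m) / (top (fun i => Bx Λ (p i) ω x) n m).card
      else 0) ≤
    ∑ y ∈ Λ, (if L ≤ (Bx Λ (p m) ω y).card then ∑ z ∈ Bx Λ (p m) ω y, wh w (z - y) else 0) := by
  classical
  set T : (Fin d → ℤ) → Finset (Fin d → ℤ) := fun x => top (fun i => Bx Λ (p i) ω x) n m with hT
  have F1 : ∀ x y, y ∈ T x → T y = T x := fun x y h => top_eq Λ p hmon ω n x y m h
  have F2 : ∀ x ∈ Λ, (T x).Nonempty → x ∈ T x := fun x hx h => top_mem Λ p ω n m hx h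
  have F3 : ∀ x, T x ⊆ Bx Λ (p m) ω x := fun x =>
    top_sub_last (fun i => Bx Λ (p i) ω x) n m (fun i _ => Bx_mono Λ (hmon (Nat.le_succ i)) ω x)
  have F4 : ∀ x, T x ⊆ Λ := fun x => (F3 x).trans (Finset.mem_powerset.1 (Bx_mem Λ (p m) ω x))
  set h : (Fin d → ℤ) → ℝ := fun y => ∑ z ∈ T y, wh w (z - y) with hh
  have hh0 : ∀ y, 0 ≤ h y := fun y => Finset.sum_nonneg fun z _ => hw.co _
  set g : (Fin d → ℤ) → ℝ := fun y => if L ≤ (T y).card then h y / (T y).card else 0 with hg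
  have e1 : ∀ x ∈ Λ, (if L ≤ (T x).card then Qw w (T x) / (T x).card else 0) =
      ∑ y ∈ T x, g y := by
    intro x hx
    split_ifs with hL
    · rw [Qw_eq hw, Finset.sum_div]
      refine Finset.sum_congr rfl fun y hy => ?_
      simp only [hg, hh, F1 x y hy, if_pos hL]
    · symm
      refine Finset.sum_eq_zero fun y hy => ?_
      simp only [hg, F1 x y hy, if_neg hL]
  have e2 : ∑ x ∈ Λ, (if L ≤ (T x).card then Qw w (T x) / (T x).card else 0) =
      ∑ x ∈ Λ, ∑ y ∈ T x, g y := Finset.sum_congr rfl e1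
  show ∑ x ∈ Λ, (if L ≤ (T x).card then Qw w (T x) / (T x).card else 0) ≤ _
  rw [e2]
  have e3 : ∑ x ∈ Λ, ∑ y ∈ T x, g y = ∑ y ∈ Λ, ∑ x ∈ T y, g y := by
    refine Finset.sum_comm' fun x y => ?_
    constructor
    · rintro ⟨h1, h2⟩
      refine ⟨?_, F4 x h2⟩
      rw [F1 x y h2]
      exact F2 x h1 ⟨y, h2⟩
    · rintro ⟨h1, h2⟩
      refine ⟨F4 y h1, ?_⟩
      rw [F1 y x h1]
      exact F2 y h2 ⟨x, h1⟩
  rw [e3]
  refine Finset.sum_le_sum fun y hy => ?_
  rw [Finset.sum_const, nsmul_eq_mul]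
  have hnn : 0 ≤ ∑ z ∈ Bx Λ (p m) ω y, wh w (z - y) := Finset.sum_nonneg fun z _ => hw.co _
  by_cases hL : L ≤ (T y).card
  · have h1 : ((T y).card : ℝ) * g y = h y ∨ (T y).card = 0 := by
      rcases Nat.eq_zero_or_pos (T y).card with h0 | h0
      · exact Or.inr h0
      · left
        simp only [hg, if_pos hL]
        have : ((T y).card : ℝ) ≠ 0 := by positivity
        field_simp
    rw [if_pos (hL.trans (Finset.card_le_card (F3 y)))]
    rcases h1 with h1 | h1
    · rw [h1]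
      exact Finset.sum_le_sum_of_subset_of_nonneg (F3 y) (fun z _ _ => hw.co _)
    · rw [h1]; simpa using hnn
  · have h1 : g y = 0 := by simp only [hg, if_neg hL]
    rw [h1, mul_zero]
    split_ifs
    · exact hnn
    · exact le_rfl

/-- the two-point function in a box as an expectation -/
theorem quad_exp (Λ : Finset (Fin d → ℤ)) (p : NNReal) (hp : p ≤ 1) (k : Fin d → ℝ) :
    ∑ x ∈ Λ, ∑ y ∈ Λ, tau d p hp (y - x) * Real.cos (dot k (y - x)) =
      ∫ ω, ∑ x ∈ Λ, nB (Bx Λ p ω x) k / (Bx Λ p ω x).card ∂(M d) := by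
  classical
  have h1 : ∀ x y : Fin d → ℤ, tau d p hp (y - x) * Real.cos (dot k (y - x)) =
      ∫ ω, Set.indicator {ω : Ed d → unitInterval | (opn (conf p ω)).Reachable x y}
        (fun _ => Real.cos (dot k (y - x))) ω ∂(M d) := by
    intro x y
    rw [integral_indicator_const _ (reach_meas p x y), reach_prob p hp x y, smul_eq_mul]
  have hint : ∀ x y : Fin d → ℤ, Integrable (Set.indicator
      {ω : Ed d → unitInterval | (opn (conf p ω)).Reachable x y}
        (fun _ => Real.cos (dot k (y - x)))) (M d) := fun x y =>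
    (integrable_const _).indicator (reach_meas p x y)
  simp_rw [h1]
  have h2 : ∑ x ∈ Λ, ∑ y ∈ Λ, ∫ ω, Set.indicator
      {ω : Ed d → unitInterval | (opn (conf p ω)).Reachable x y}
        (fun _ => Real.cos (dot k (y - x))) ω ∂(M d) =
      ∫ ω, ∑ x ∈ Λ, ∑ y ∈ Λ, Set.indicator
        {ω : Ed d → unitInterval | (opn (conf p ω)).Reachable x y}
        (fun _ => Real.cos (dot k (y - x))) ω ∂(M d) := by
    rw [integral_finsetSum _ (fun x _ => integrable_finsetSum _ (fun y _ => hint x y))]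
    refine Finset.sum_congr rfl fun x _ => ?_
    rw [integral_finsetSum _ (fun y _ => hint x y)]
  rw [h2]
  refine integral_congr_ae (Eventually.of_forall fun ω => ?_)
  simp only
  rw [sum_nB]
  refine Finset.sum_congr rfl fun x _ => ?_
  rw [Bx, Finset.sum_filter]
  refine Finset.sum_congr rfl fun y _ => ?_
  simp only [Set.indicator_apply, Set.mem_ofPred_eq]

/-- the maximal inequality in a box -/
theorem box_max {w : (Fin d → ℝ) → ℝ} (hw : Wt w) (Λ : Finset (Fin d → ℤ)) (p : ℕ → NNReal)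
    (hmon : Monotone p) (hp : ∀ i, p i ≤ 1) (m : ℕ) (s : ℕ → ℝ)
    (hs : ∀ y ∈ Λ, ∀ j, ∑ z ∈ Λ, wh w (z - y) * (M d).real
      {ω | (opn (conf (p m) ω)).Reachable y z ∧ 2 ^ j ≤ (Bx Λ (p m) ω y).card} ≤ s j) (K : ℝ)
    (hK : ∀ J : ℕ, ∑ j ∈ Finset.range J, ((j : ℝ) + 1) ^ 2 * s j ≤ K) :
    ∃ W : (Fin d → ℝ) → ℝ, Continuous W ∧
      (∀ i ≤ m, ∀ k, ∑ x ∈ Λ, ∑ y ∈ Λ, tau d (p i) (hp i) (y - x) * Real.cos (dot k (y - x)) ≤
        W k) ∧
      ∫ k in cube d, w k * W k ≤ Λ.card * (2 * K) := by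
  classical
  set C : Finset (Fin (m + 1) → Finset (Fin d → ℤ)) :=
    Fintype.piFinset (fun _ => Λ.powerset) with hC
  have hXC : ∀ x ω, Xc Λ p m x ω ∈ C := by
    intro x ω
    rw [hC, Fintype.mem_piFinset]
    exact fun i => Bx_mem Λ _ ω x
  refine ⟨fun k => ∑ x ∈ Λ, ∑ c ∈ C, (M d).real {ω | Xc Λ p m x ω = c} * Vf hw c k, ?_, ?_, ?_⟩
  · exact continuous_finsetSum _ fun x _ => continuous_finsetSum _ fun c _ =>
      continuous_const.mul (Vf_cont hw c)
  · intro i hi k
    rw [quad_exp]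
    have h1 : ∑ x ∈ Λ, ∑ c ∈ C, (M d).real {ω | Xc Λ p m x ω = c} * Vf hw c k =
        ∫ ω, ∑ x ∈ Λ, Vf hw (Xc Λ p m x ω) k ∂(M d) := by
      rw [integral_finsetSum _ (fun x _ => fin_int (M d) (Xc Λ p m x) C (hXC x)
        (Xc_meas Λ p m x) (fun c => Vf hw c k))]
      refine Finset.sum_congr rfl fun x _ => ?_
      rw [fin_exp (M d) (Xc Λ p m x) C (hXC x) (Xc_meas Λ p m x) (fun c => Vf hw c k)]
    simp only
    rw [h1]
    refine integral_mono ?_ ?_ ?_
    · exact integrable_finsetSum _ fun x _ => fin_int (M d) (fun ω => Bx Λ (p i) ω x) Λ.powerset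
        (fun ω => Bx_mem Λ _ ω x) (Bx_meas Λ _ x) (fun B => nB B k / B.card)
    · exact integrable_finsetSum _ fun x _ => fin_int (M d) (Xc Λ p m x) C (hXC x)
        (Xc_meas Λ p m x) (fun c => Vf hw c k)
    · intro ω
      refine Finset.sum_le_sum fun x hx => ?_
      have := Vf_le hw (Xc Λ p m x ω) (Xc_ch Λ p hmon m hx ω) i hi k
      rwa [Xc_ext Λ p m x ω hi] at this
  · obtain ⟨J, hJ⟩ : ∃ J : ℕ, Λ.card < 2 ^ J := ⟨Λ.card, Nat.lt_two_pow_self⟩
    have hcV : ∀ c : Fin (m + 1) → Finset (Fin d → ℤ), Integrable (fun k : Fin d → ℝ =>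
          w k * Vf hw c k) (volume.restrict (cube d)) :=
        fun c => integrable_of_cont (hw.cont.mul (Vf_cont hw c))
    have hcW : ∀ x : Fin d → ℤ, Integrable (fun k : Fin d → ℝ =>
        ∑ c ∈ C, (M d).real {ω | Xc Λ p m x ω = c} * (w k * Vf hw c k))
        (volume.restrict (cube d)) :=
      fun x => integrable_finsetSum _ fun c _ => (hcV c).const_mul _
    have e0 : ∀ k : Fin d → ℝ, w k * ∑ x ∈ Λ, ∑ c ∈ C, (M d).real {ω | Xc Λ p m x ω = c} *
        Vf hw c k = ∑ x ∈ Λ, ∑ c ∈ C, (M d).real {ω | Xc Λ p m x ω = c} *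
        (w k * Vf hw c k) := by
      intro k
      rw [Finset.mul_sum]
      refine Finset.sum_congr rfl fun x _ => ?_
      rw [Finset.mul_sum]
      exact Finset.sum_congr rfl fun c _ => by ring
    simp_rw [e0]
    rw [integral_finsetSum _ (fun x _ => hcW x)]
    have h2 : ∀ x ∈ Λ, ∫ k in cube d, ∑ c ∈ C, (M d).real {ω | Xc Λ p m x ω = c} *
        (w k * Vf hw c k) ≤ ∫ ω, Ps w (fun i => Bx Λ (p i) ω x) m J ∂(M d) := by
      intro x hx
      rw [integral_finsetSum _ (fun c _ => (hcV c).const_mul _)]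
      have h3 : ∑ c ∈ C, ∫ k in cube d, (M d).real {ω | Xc Λ p m x ω = c} * (w k * Vf hw c k) ≤
          ∑ c ∈ C, (M d).real {ω | Xc Λ p m x ω = c} * Ps w (ext c) m J := by
        refine Finset.sum_le_sum fun c hc => ?_
        rw [integral_const_mul]
        refine mul_le_mul_of_nonneg_left (Vf_int hw c ?_) measureReal_nonneg
        rw [hC, Fintype.mem_piFinset] at hc
        exact (Finset.card_le_card (Finset.mem_powerset.1 (hc _))).trans_lt hJ
      refine h3.trans (le_of_eq ?_)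
      rw [← fin_exp (M d) (Xc Λ p m x) C (hXC x) (Xc_meas Λ p m x) (fun c => Ps w (ext c) m J)]
      refine integral_congr_ae (Eventually.of_forall fun ω => ?_)
      exact Ps_congr w _ _ m J (fun i hi => Xc_ext Λ p m x ω hi)
    refine (Finset.sum_le_sum h2).trans ?_
    have hPI : ∀ x : Fin d → ℤ, Integrable (fun ω => Ps w (fun i => Bx Λ (p i) ω x) m J)
        (M d) := by
      intro x
      have := fin_int (M d) (Xc Λ p m x) C (hXC x) (Xc_meas Λ p m x) (fun c => Ps w (ext c) m J)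
      refine this.congr (Eventually.of_forall fun ω => ?_)
      exact Ps_congr w _ _ m J (fun i hi => Xc_ext Λ p m x ω hi)
    rw [← integral_finsetSum _ (fun x _ => hPI x)]
    have hEm : ∀ (j : ℕ) (y z : Fin d → ℤ), MeasurableSet
        {ω : Ed d → unitInterval | (opn (conf (p m) ω)).Reachable y z ∧
          2 ^ j ≤ (Bx Λ (p m) ω y).card} := fun j y z =>
      (reach_meas (p m) y z).inter (card_meas Λ (p m) y _)
    have h4 : ∀ ω, ∑ x ∈ Λ, Ps w (fun i => Bx Λ (p i) ω x) m J ≤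
        ∑ j ∈ Finset.range J, ∑ y ∈ Λ, ∑ z ∈ Λ, Set.indicator
          {ω : Ed d → unitInterval | (opn (conf (p m) ω)).Reachable y z ∧
            2 ^ j ≤ (Bx Λ (p m) ω y).card}
          (fun _ => 2 * ((j : ℝ) + 1) ^ 2 * wh w (z - y)) ω := by
      intro ω
      unfold Ps
      rw [Finset.sum_comm]
      refine Finset.sum_le_sum fun j _ => ?_
      have h5 := mul_le_mul_of_nonneg_left (dc hw Λ p hmon ω (2 ^ (j + 1)) m (2 ^ j))
        (show (0 : ℝ) ≤ 2 * ((j : ℝ) + 1) ^ 2 by positivity)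
      rw [Finset.mul_sum, Finset.mul_sum] at h5
      refine le_trans (le_of_eq ?_) (h5.trans (le_of_eq ?_))
      · refine Finset.sum_congr rfl fun x _ => ?_
        split_ifs <;> simp
      · refine Finset.sum_congr rfl fun y _ => ?_
        by_cases hL : 2 ^ j ≤ (Bx Λ (p m) ω y).card
        · rw [if_pos hL, Bx, Finset.sum_filter, Finset.mul_sum]
          refine Finset.sum_congr rfl fun z _ => ?_
          simp only [Set.indicator_apply, Set.mem_ofPred_eq]
          have hL' : 2 ^ j ≤ (Λ.filter (fun y_1 => (opn (conf (p m) ω)).Reachable y y_1)).card := hL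
          by_cases hr : (opn (conf (p m) ω)).Reachable y z
          · rw [if_pos hr, if_pos ⟨hr, hL⟩]
          · rw [if_neg hr, if_neg (fun h => hr h.1), mul_zero]
        · rw [if_neg hL, mul_zero]
          symm
          refine Finset.sum_eq_zero fun z _ => ?_
          exact Set.indicator_of_notMem (fun h => hL h.2) _
    have hInd : ∀ (j : ℕ) (y z : Fin d → ℤ), Integrable (fun ω => Set.indicator
          {ω : Ed d → unitInterval | (opn (conf (p m) ω)).Reachable y z ∧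
            2 ^ j ≤ (Bx Λ (p m) ω y).card}
          (fun _ => 2 * ((j : ℝ) + 1) ^ 2 * wh w (z - y)) ω) (M d) := fun j y z =>
      (integrable_const _).indicator (hEm j y z)
    refine (integral_mono (integrable_finsetSum _ fun x _ => hPI x)
      (integrable_finsetSum _ fun j _ => integrable_finsetSum _ fun y _ =>
        integrable_finsetSum _ fun z _ => hInd j y z) h4).trans ?_
    rw [integral_finsetSum _ (fun j _ => integrable_finsetSum _ fun y _ =>
        integrable_finsetSum _ fun z _ => hInd j y z)]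
    have h6 : ∀ j ∈ Finset.range J, ∫ ω, ∑ y ∈ Λ, ∑ z ∈ Λ, Set.indicator
          {ω : Ed d → unitInterval | (opn (conf (p m) ω)).Reachable y z ∧
            2 ^ j ≤ (Bx Λ (p m) ω y).card}
          (fun _ => 2 * ((j : ℝ) + 1) ^ 2 * wh w (z - y)) ω ∂(M d) ≤
        2 * (Λ.card * (((j : ℝ) + 1) ^ 2 * s j)) := by
      intro j _
      rw [integral_finsetSum _ (fun y _ => integrable_finsetSum _ fun z _ => hInd j y z)]
      have h7 : ∀ y ∈ Λ, ∫ ω, ∑ z ∈ Λ, Set.indicator
          {ω : Ed d → unitInterval | (opn (conf (p m) ω)).Reachable y z ∧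
            2 ^ j ≤ (Bx Λ (p m) ω y).card}
          (fun _ => 2 * ((j : ℝ) + 1) ^ 2 * wh w (z - y)) ω ∂(M d) ≤
          2 * ((j : ℝ) + 1) ^ 2 * s j := by
        intro y hy
        rw [integral_finsetSum _ (fun z _ => hInd j y z)]
        simp_rw [integral_indicator_const _ (hEm j y _), smul_eq_mul]
        have h8 := mul_le_mul_of_nonneg_left (hs y hy j)
          (show (0 : ℝ) ≤ 2 * ((j : ℝ) + 1) ^ 2 by positivity)
        rw [Finset.mul_sum] at h8
        refine le_trans (le_of_eq ?_) h8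
        exact Finset.sum_congr rfl fun z _ => by ring
      refine (Finset.sum_le_sum h7).trans (le_of_eq ?_)
      rw [Finset.sum_const, nsmul_eq_mul]
      ring
    refine (Finset.sum_le_sum h6).trans ?_
    rw [← Finset.mul_sum, ← Finset.mul_sum]
    have h9 := hK J
    have h10 : (0 : ℝ) ≤ Λ.card := Nat.cast_nonneg _
    nlinarith

end Run7.h976.IR
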