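import Pool.Agent.Results.MP_54f242_pr.InfraredMean

/-!
Trigonometric sums over an increasing chain of finite sets of `ℤ^d`: the maximum of
`|S_B(k)|² / |B|` over the chain has mean at most `2 ∑_{2^j ≤ N} (j + 1)²`, `N` the size of the
largest set (Rademacher and Menshov, in every dyadic range of sizes).
-/

set_option autoImplicit false

namespace Run7.h976.IR

open MeasureTheory Filter Topology
open Pool.Agent.Results.MP_54f242_pr.InfraredMean

theorem enum_set {V : Type*} [DecidableEq V] [Inhabited V] (A : Finset V) :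
    ∃ f : ℕ → V, Set.InjOn f {n | n < A.card} ∧ A = (Finset.range A.card).image f := by
  refine ⟨fun n => if h : n < A.card then (A.equivFin.symm ⟨n, h⟩ : V) else default, ?_, ?_⟩
  · intro a ha b hb hab
    simp only [Set.mem_ofPred_eq] at ha hb
    simp only [dif_pos ha, dif_pos hb] at hab
    have := A.equivFin.symm.injective (Subtype.ext hab)
    simpa using this
  · ext y
    simp only [Finset.mem_image, Finset.mem_range]
    constructor
    · intro hy
      refine ⟨A.equivFin ⟨y, hy⟩, (A.equivFin ⟨y, hy⟩).2, ?_⟩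
      rw [dif_pos (A.equivFin ⟨y, hy⟩).2]
      simp
    · rintro ⟨n, hn, rfl⟩
      rw [dif_pos hn]
      exact (A.equivFin.symm ⟨n, hn⟩).2

theorem chain_sub {V : Type*} (B : ℕ → Finset V) : ∀ m : ℕ, (∀ i, i < m → B i ⊆ B (i + 1)) →
    ∀ i ≤ m, B i ⊆ B m
  | 0, _, i, hi => by rw [Nat.le_zero.1 hi]
  | m + 1, hB, i, hi => by
    rcases Nat.lt_or_ge i (m + 1) with h | h
    · exact (chain_sub B m (fun j hj => hB j (by omega)) i (by omega)).trans (hB m (by omega))
    · rw [show i = m + 1 by omega]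

/-- an enumeration compatible with a chain of finite sets -/
theorem enum_chain {V : Type*} [DecidableEq V] [Inhabited V] (m : ℕ) (B : ℕ → Finset V)
    (hB : ∀ i, i < m → B i ⊆ B (i + 1)) :
    ∃ e : ℕ → V, Set.InjOn e {n | n < (B m).card} ∧
      ∀ i ≤ m, B i = (Finset.range (B i).card).image e := by
  induction m with
  | zero =>
    obtain ⟨f, h1, h2⟩ := enum_set (B 0)
    exact ⟨f, h1, fun i hi => by rw [Nat.le_zero.1 hi]; exact h2⟩
  | succ m ih =>
    obtain ⟨e, he1, he2⟩ := ih (fun i hi => hB i (by omega))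
    obtain ⟨f, hf1, hf2⟩ := enum_set (B (m + 1) \ B m)
    have hsub := hB m (by omega)
    have hmono : ∀ i ≤ m, B i ⊆ B m := chain_sub B m (fun i hi => hB i (by omega))
    have hcard : (B (m + 1) \ B m).card + (B m).card = (B (m + 1)).card :=
      Finset.card_sdiff_add_card_eq_card hsub
    set g : ℕ → V := fun n => if n < (B m).card then e n else f (n - (B m).card) with hg
    have hgl : ∀ n, n < (B m).card → g n = e n := fun n hn => by simp only [hg, if_pos hn]
    have hgr : ∀ n, (B m).card ≤ n → g n = f (n - (B m).card) := fun n hn => by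
      simp only [hg, if_neg (not_lt.2 hn)]
    have hmem_e : ∀ n, n < (B m).card → e n ∈ B m := fun n hn => by
      rw [he2 m le_rfl]; exact Finset.mem_image_of_mem _ (Finset.mem_range.2 hn)
    have hmem_f : ∀ n, n < (B (m + 1) \ B m).card → f n ∈ B (m + 1) \ B m := fun n hn => by
      rw [hf2]; exact Finset.mem_image_of_mem _ (Finset.mem_range.2 hn)
    refine ⟨g, ?_, ?_⟩
    · intro a ha b hb hab
      simp only [Set.mem_ofPred_eq] at ha hb
      rcases lt_or_ge a (B m).card with h1 | h1 <;> rcases lt_or_ge b (B m).card with h2 | h2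
      · rw [hgl a h1, hgl b h2] at hab
        exact he1 h1 h2 hab
      · rw [hgl a h1, hgr b h2] at hab
        have h3 := hmem_f (b - (B m).card) (by omega)
        rw [← hab] at h3
        exact absurd (hmem_e a h1) (Finset.mem_sdiff.1 h3).2
      · rw [hgr a h1, hgl b h2] at hab
        have h3 := hmem_f (a - (B m).card) (by omega)
        rw [hab] at h3
        exact absurd (hmem_e b h2) (Finset.mem_sdiff.1 h3).2
      · rw [hgr a h1, hgr b h2] at hab
        have h3 : a - (B m).card = b - (B m).card :=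
          hf1 (show a - (B m).card < _ by omega) (show b - (B m).card < _ by omega) hab
        omega
    · intro i hi
      rcases Nat.lt_or_ge i (m + 1) with h1 | h1
      · have hc : (B i).card ≤ (B m).card := Finset.card_le_card (hmono i (by omega))
        conv_lhs => rw [he2 i (by omega)]
        refine Finset.image_congr fun n hn => ?_
        rw [Finset.coe_range, Set.mem_Iio] at hn
        exact (hgl n (by omega)).symm
      · have hi' : i = m + 1 := by omega
        subst hi'
        ext y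
        simp only [Finset.mem_image, Finset.mem_range]
        constructor
        · intro hy
          by_cases h2 : y ∈ B m
          · rw [he2 m le_rfl] at h2
            obtain ⟨n, hn, rfl⟩ := Finset.mem_image.1 h2
            rw [Finset.mem_range] at hn
            exact ⟨n, by omega, hgl n hn⟩
          · have h3 : y ∈ B (m + 1) \ B m := Finset.mem_sdiff.2 ⟨hy, h2⟩
            rw [hf2] at h3
            obtain ⟨n, hn, rfl⟩ := Finset.mem_image.1 h3
            rw [Finset.mem_range] at hn
            refine ⟨n + (B m).card, by omega, ?_⟩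
            rw [hgr _ (by omega), Nat.add_sub_cancel]
        · rintro ⟨n, hn, rfl⟩
          rcases lt_or_ge n (B m).card with h2 | h2
          · rw [hgl n h2]; exact hsub (hmem_e n h2)
          · rw [hgr n h2]
            exact (Finset.mem_sdiff.1 (hmem_f _ (by omega))).1


variable {d : ℕ}

/-- the sum of `cos (k · y)` over `B` -/
noncomputable def cB (B : Finset (Fin d → ℤ)) (k : Fin d → ℝ) : ℝ := ∑ y ∈ B, Real.cos (dot k y)

/-- the sum of `sin (k · y)` over `B` -/
noncomputable def sB (B : Finset (Fin d → ℤ)) (k : Fin d → ℝ) : ℝ := ∑ y ∈ B, Real.sin (dot k y)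

/-- the square of the modulus of the sum of `exp (i k · y)` over `B` -/
noncomputable def nB (B : Finset (Fin d → ℤ)) (k : Fin d → ℝ) : ℝ := cB B k ^ 2 + sB B k ^ 2

theorem cB_cont (B : Finset (Fin d → ℤ)) : Continuous (cB B) := by
  unfold cB dot; fun_prop

theorem sB_cont (B : Finset (Fin d → ℤ)) : Continuous (sB B) := by
  unfold sB dot; fun_prop

theorem nB_cont (B : Finset (Fin d → ℤ)) : Continuous (nB B) :=
  ((cB_cont B).pow 2).add ((sB_cont B).pow 2)

theorem nB_nonneg (B : Finset (Fin d → ℤ)) (k : Fin d → ℝ) : 0 ≤ nB B k := by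
  unfold nB; positivity

theorem nB_eq (B : Finset (Fin d → ℤ)) (k : Fin d → ℝ) :
    nB B k = ∑ y ∈ B, ∑ z ∈ B, Real.cos (dot k (z - y)) := by
  unfold nB cB sB
  rw [sq, sq, Finset.sum_mul_sum, Finset.sum_mul_sum, ← Finset.sum_add_distrib]
  refine Finset.sum_congr rfl fun y _ => ?_
  rw [← Finset.sum_add_distrib]
  refine Finset.sum_congr rfl fun z _ => ?_
  rw [dot_sub, Real.cos_sub]
  ring

theorem cos_cont (x : Fin d → ℤ) : Continuous fun k : Fin d → ℝ => Real.cos (dot k x) := by
  unfold dot; fun_prop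

theorem int_nB (B : Finset (Fin d → ℤ)) :
    ∫ k in cube d, nB B k = (2 * Real.pi) ^ d * B.card := by
  simp_rw [nB_eq]
  rw [integral_finsetSum _ (fun y _ => integrable_of_cont
    (continuous_finsetSum _ fun z _ => cos_cont _))]
  have : ∀ y ∈ B, ∫ k in cube d, ∑ z ∈ B, Real.cos (dot k (z - y)) = (2 * Real.pi) ^ d := by
    intro y hy
    rw [integral_finsetSum _ (fun z _ => integrable_of_cont (cos_cont _))]
    simp_rw [int_cos, sub_eq_zero]
    rw [Finset.sum_ite_eq']
    simp [hy]
  rw [Finset.sum_congr rfl this, Finset.sum_const, nsmul_eq_mul, mul_comm]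

/-- partial sums of `cos` along an enumeration, stopped at `N` -/
noncomputable def ac (e : ℕ → Fin d → ℤ) (N : ℕ) (n : ℕ) (k : Fin d → ℝ) : ℝ :=
  ∑ l ∈ Finset.range (min n N), Real.cos (dot k (e l))

/-- partial sums of `sin` along an enumeration, stopped at `N` -/
noncomputable def as (e : ℕ → Fin d → ℤ) (N : ℕ) (n : ℕ) (k : Fin d → ℝ) : ℝ :=
  ∑ l ∈ Finset.range (min n N), Real.sin (dot k (e l))

theorem ac_cont (e : ℕ → Fin d → ℤ) (N n : ℕ) : Continuous (ac e N n) := by
  unfold ac dot; fun_prop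

theorem as_cont (e : ℕ → Fin d → ℤ) (N n : ℕ) : Continuous (as e N n) := by
  unfold as dot; fun_prop

/-- the increments are sums over finite sets -/
theorem incr (e : ℕ → Fin d → ℤ) (N : ℕ) (he : Set.InjOn e {n | n < N}) (a b : ℕ) (hab : a ≤ b)
    (k : Fin d → ℝ) :
    (ac e N b k - ac e N a k) ^ 2 + (as e N b k - as e N a k) ^ 2 =
      nB ((Finset.Ico (min a N) (min b N)).image e) k := by
  have hmin : min a N ≤ min b N := min_le_min_right N hab
  have hinj : Set.InjOn e (Finset.Ico (min a N) (min b N) : Finset ℕ) := by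
    intro x hx y hy hxy
    rw [Finset.coe_Ico, Set.mem_Ico] at hx hy
    exact he (show x < N by omega) (show y < N by omega) hxy
  unfold ac as nB cB sB
  rw [Finset.sum_image hinj, Finset.sum_image hinj,
    Finset.sum_Ico_eq_sub _ hmin, Finset.sum_Ico_eq_sub _ hmin]

/-- the weights: continuous, nonnegative, with nonnegative Fourier coefficients -/
structure Wt (w : (Fin d → ℝ) → ℝ) : Prop where
  cont : Continuous w
  nn : ∀ k, 0 ≤ w k
  co : ∀ x : Fin d → ℤ, 0 ≤ ∫ k in cube d, w k * Real.cos (dot k x)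

/-- Fourier coefficient -/
noncomputable def wh (w : (Fin d → ℝ) → ℝ) (x : Fin d → ℤ) : ℝ :=
  ∫ k in cube d, w k * Real.cos (dot k x)

/-- the weighted square -/
noncomputable def Qw (w : (Fin d → ℝ) → ℝ) (B : Finset (Fin d → ℤ)) : ℝ :=
  ∫ k in cube d, w k * nB B k

theorem Qw_eq {w : (Fin d → ℝ) → ℝ} (hw : Wt w) (B : Finset (Fin d → ℤ)) :
    Qw w B = ∑ y ∈ B, ∑ z ∈ B, wh w (z - y) := by
  unfold Qw wh
  have e : ∀ k : Fin d → ℝ, w k * nB B k =
      ∑ y ∈ B, ∑ z ∈ B, w k * Real.cos (dot k (z - y)) := by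
    intro k
    rw [nB_eq, Finset.mul_sum]
    exact Finset.sum_congr rfl fun y _ => Finset.mul_sum _ _ _
  have h1 : ∀ x : Fin d → ℤ, Integrable (fun k : Fin d → ℝ => w k * Real.cos (dot k x))
      (volume.restrict (cube d)) := fun x => integrable_of_cont (hw.cont.mul (cos_cont x))
  simp_rw [e]
  rw [integral_finsetSum _ (fun y _ => integrable_finsetSum _ fun z _ => h1 _)]
  refine Finset.sum_congr rfl fun y _ => ?_
  rw [integral_finsetSum _ (fun z _ => h1 _)]

theorem Qw_nonneg {w : (Fin d → ℝ) → ℝ} (hw : Wt w) (B : Finset (Fin d → ℤ)) : 0 ≤ Qw w B := by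
  rw [Qw_eq hw]
  exact Finset.sum_nonneg fun y _ => Finset.sum_nonneg fun z _ => hw.co _

/-- the density of the weighted square of the set of the first `N` points -/
noncomputable def rr (w : (Fin d → ℝ) → ℝ) (e : ℕ → Fin d → ℤ) (N : ℕ) (l : ℕ) : ℝ :=
  ∑ n ∈ Finset.range N, wh w (e n - e l)

theorem rr_nonneg {w : (Fin d → ℝ) → ℝ} (hw : Wt w) (e : ℕ → Fin d → ℤ) (N l : ℕ) :
    0 ≤ rr w e N l := Finset.sum_nonneg fun _ _ => hw.co _

/-- its partial sums -/
noncomputable def RR (w : (Fin d → ℝ) → ℝ) (e : ℕ → Fin d → ℤ) (N : ℕ) (n : ℕ) : ℝ :=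
  ∑ l ∈ Finset.range (min n N), rr w e N l

theorem RR_le {w : (Fin d → ℝ) → ℝ} (hw : Wt w) (e : ℕ → Fin d → ℤ) (N n : ℕ)
    (he : Set.InjOn e {n | n < N}) : RR w e N n ≤ Qw w ((Finset.range N).image e) := by
  have hinj : Set.InjOn e (Finset.range N : Finset ℕ) := by
    intro x hx y hy hxy
    rw [Finset.coe_range, Set.mem_Iio] at hx hy
    exact he hx hy hxy
  rw [Qw_eq hw, Finset.sum_image hinj]
  simp_rw [Finset.sum_image hinj]
  refine Finset.sum_le_sum_of_subset_of_nonneg ?_ (fun l _ _ => rr_nonneg hw e N l)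
  intro l hl
  rw [Finset.mem_range] at hl ⊢
  omega

theorem incr_int {w : (Fin d → ℝ) → ℝ} (hw : Wt w) (e : ℕ → Fin d → ℤ) (N : ℕ)
    (he : Set.InjOn e {n | n < N}) (a b : ℕ) (hab : a ≤ b) :
    ∫ k in cube d, w k * ((ac e N b k - ac e N a k) ^ 2 + (as e N b k - as e N a k) ^ 2) ≤
      RR w e N b - RR w e N a := by
  simp_rw [incr e N he a b hab]
  have h0 : ∫ k in cube d, w k * nB ((Finset.Ico (min a N) (min b N)).image e) k =
      Qw w ((Finset.Ico (min a N) (min b N)).image e) := rfl
  have hinj : Set.InjOn e (Finset.Ico (min a N) (min b N) : Finset ℕ) := by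
    intro x hx y hy hxy
    rw [Finset.coe_Ico, Set.mem_Ico] at hx hy
    exact he (show x < N by omega) (show y < N by omega) hxy
  rw [h0, Qw_eq hw, Finset.sum_image hinj, RR, RR,
    ← Finset.sum_Ico_eq_sub _ (min_le_min_right N hab)]
  refine Finset.sum_le_sum fun l _ => ?_
  rw [Finset.sum_image hinj, rr]
  refine Finset.sum_le_sum_of_subset_of_nonneg ?_ (fun n _ _ => hw.co _)
  intro n hn
  rw [Finset.mem_Ico] at hn
  rw [Finset.mem_range]
  omega

theorem SS_cont' : ∀ (L : ℕ) (a : ℕ → (Fin d → ℝ) → ℝ), (∀ i, Continuous (a i)) →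
    Continuous fun k => SS L (fun j => a j k)
  | 0, _, _ => by simp only [SS]; exact continuous_const
  | L + 1, a, h => by
    simp only [SS]
    refine Continuous.add ?_ (SS_cont' L (fun i => a (2 * i)) (fun i => h _))
    exact continuous_finsetSum _ fun i _ => ((h _).sub (h _)).pow 2

theorem int_SS2 {w : (Fin d → ℝ) → ℝ} (hw : Wt w) (e : ℕ → Fin d → ℤ) (N : ℕ)
    (he : Set.InjOn e {n | n < N}) : ∀ (L s : ℕ),
    ∫ k in cube d, w k * (SS L (fun i => ac e N (s * i) k) + SS L (fun i => as e N (s * i) k)) ≤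
      L * Qw w ((Finset.range N).image e)
  | 0, s => by simp [SS]
  | L + 1, s => by
    have ih := int_SS2 hw e N he L (s * 2)
    have e1 : ∀ k : Fin d → ℝ, w k * (SS (L + 1) (fun i => ac e N (s * i) k) +
        SS (L + 1) (fun i => as e N (s * i) k)) =
        ∑ i ∈ Finset.range (2 ^ (L + 1)), w k * ((ac e N (s * (i + 1)) k - ac e N (s * i) k) ^ 2 +
          (as e N (s * (i + 1)) k - as e N (s * i) k) ^ 2) +
        w k * (SS L (fun i => ac e N (s * 2 * i) k) + SS L (fun i => as e N (s * 2 * i) k)) := by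
      intro k
      simp only [SS, ← mul_assoc]
      rw [← Finset.mul_sum, Finset.sum_add_distrib]
      ring
    simp_rw [e1]
    have hc1 : ∀ i : ℕ, Continuous fun k : Fin d → ℝ =>
        w k * ((ac e N (s * (i + 1)) k - ac e N (s * i) k) ^ 2 +
          (as e N (s * (i + 1)) k - as e N (s * i) k) ^ 2) := fun i =>
      hw.cont.mul ((((ac_cont e N _).sub (ac_cont e N _)).pow 2).add
        (((as_cont e N _).sub (as_cont e N _)).pow 2))
    have hc2 : Continuous fun k : Fin d → ℝ => w k * (SS L (fun i => ac e N (s * 2 * i) k) +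
        SS L (fun i => as e N (s * 2 * i) k)) :=
      hw.cont.mul ((SS_cont' L _ (fun i => ac_cont e N _)).add
        (SS_cont' L _ (fun i => as_cont e N _)))
    rw [integral_add (integrable_of_cont (continuous_finsetSum _ fun i _ => hc1 i))
      (integrable_of_cont hc2), integral_finsetSum _ (fun i _ => integrable_of_cont (hc1 i))]
    have h2 : ∑ i ∈ Finset.range (2 ^ (L + 1)), ∫ k in cube d,
        w k * ((ac e N (s * (i + 1)) k - ac e N (s * i) k) ^ 2 +
          (as e N (s * (i + 1)) k - as e N (s * i) k) ^ 2) ≤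
        ∑ i ∈ Finset.range (2 ^ (L + 1)), (RR w e N (s * (i + 1)) - RR w e N (s * i)) :=
      Finset.sum_le_sum fun i _ => incr_int hw e N he (s * i) (s * (i + 1))
        (Nat.mul_le_mul_left s (by omega))
    rw [Finset.sum_range_sub (fun i => RR w e N (s * i))] at h2
    have h3 : RR w e N (s * 0) = 0 := by simp [RR]
    have h4 := RR_le hw e N (s * 2 ^ (L + 1)) he
    push_cast
    linarith

/-- the last set of the chain `B 0 ⊆ ... ⊆ B m` with less than `n` elements -/
def top (B : ℕ → Finset (Fin d → ℤ)) (n : ℕ) : ℕ → Finset (Fin d → ℤ)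
  | 0 => if (B 0).card < n then B 0 else ∅
  | m + 1 => if (B (m + 1)).card < n then B (m + 1) else top B n m

theorem top_card (B : ℕ → Finset (Fin d → ℤ)) (n : ℕ) (hn : 0 < n) :
    ∀ m, (top B n m).card < n
  | 0 => by unfold top; split_ifs with h <;> simp [h, hn]
  | m + 1 => by
    unfold top
    split_ifs with h
    · exact h
    · exact top_card B n hn m

theorem top_cases (B : ℕ → Finset (Fin d → ℤ)) (n : ℕ) :
    ∀ m, top B n m = ∅ ∨ ∃ i ≤ m, top B n m = B i
  | 0 => by
    unfold top
    split_ifs with h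
    · exact Or.inr ⟨0, le_rfl, rfl⟩
    · exact Or.inl rfl
  | m + 1 => by
    unfold top
    split_ifs with h
    · exact Or.inr ⟨m + 1, le_rfl, rfl⟩
    · rcases top_cases B n m with h1 | ⟨i, hi, h1⟩
      · exact Or.inl h1
      · exact Or.inr ⟨i, by omega, h1⟩

theorem top_sub (B : ℕ → Finset (Fin d → ℤ)) (n : ℕ) : ∀ m, (∀ i, i < m → B i ⊆ B (i + 1)) →
    ∀ i ≤ m, (B i).card < n → B i ⊆ top B n m
  | 0, _, i, hi, hc => by
    rw [Nat.le_zero.1 hi] at hc ⊢
    unfold top
    rw [if_pos hc]
  | m + 1, hB, i, hi, hc => by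
    unfold top
    split_ifs with h
    · exact chain_sub B (m + 1) hB i hi
    · rcases Nat.lt_or_ge i (m + 1) with h1 | h1
      · exact top_sub B n m (fun j hj => hB j (by omega)) i (by omega) hc
      · rw [show i = m + 1 by omega] at hc
        exact absurd hc h

/-- the maximal inequality for a chain of finite sets -/
theorem RM {w : (Fin d → ℝ) → ℝ} (hw : Wt w) (m : ℕ) (B : ℕ → Finset (Fin d → ℤ))
    (hB : ∀ i, i < m → B i ⊆ B (i + 1)) (h0 : (B 0).Nonempty) :
    ∃ V : (Fin d → ℝ) → ℝ, Continuous V ∧ (∀ k, 0 ≤ V k) ∧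
      (∀ i ≤ m, ∀ k, nB (B i) k / (B i).card ≤ V k) ∧
      ∫ k in cube d, w k * V k ≤
        ∑ j ∈ Finset.range (Nat.log 2 (B m).card + 1), (if 2 ^ j ≤ (top B (2 ^ (j + 1)) m).card then
          2 * ((j : ℝ) + 1) ^ 2 * (Qw w (top B (2 ^ (j + 1)) m) /
            (top B (2 ^ (j + 1)) m).card) else 0) := by
  classical
  obtain ⟨e, he1, he2⟩ := enum_chain m B hB
  set N := (B m).card with hN
  have hsub := chain_sub B m hB
  -- the sizes of the top sets
  have htN : ∀ n, (top B n m).card ≤ N := by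
    intro n
    rcases top_cases B n m with h | ⟨i, hi, h⟩
    · rw [h]; simp
    · rw [h]; exact Finset.card_le_card (hsub i hi)
  have hti : ∀ n, top B n m = (Finset.range (top B n m).card).image e := by
    intro n
    rcases top_cases B n m with h | ⟨i, hi, h⟩
    · rw [h]; simp
    · rw [h]; exact he2 i hi
  have hte : ∀ n, Set.InjOn e {l | l < (top B n m).card} := by
    intro n a ha b hb hab
    simp only [Set.mem_ofPred_eq] at ha hb
    exact he1 (show a < _ from lt_of_lt_of_le ha (htN n)) (show b < _ from lt_of_lt_of_le hb (htN n))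
      hab
  set T : ℕ → ℕ := fun j => (top B (2 ^ (j + 1)) m).card with hT
  have hV1 : ∀ j : ℕ, Continuous fun k : Fin d → ℝ =>
      (if 2 ^ j ≤ T j then (((j : ℝ) + 1) / 2 ^ j) * (SS (j + 1) (fun i => ac e (T j) (1 * i) k) +
        SS (j + 1) (fun i => as e (T j) (1 * i) k)) else 0) := by
    intro j
    split_ifs
    · exact continuous_const.mul
        ((SS_cont' _ _ (fun i => ac_cont e _ _)).add (SS_cont' _ _ (fun i => as_cont e _ _)))
    · exact continuous_const
  have hV0 : ∀ (j : ℕ) (k : Fin d → ℝ), 0 ≤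
      (if 2 ^ j ≤ T j then (((j : ℝ) + 1) / 2 ^ j) * (SS (j + 1) (fun i => ac e (T j) (1 * i) k) +
        SS (j + 1) (fun i => as e (T j) (1 * i) k)) else 0) := by
    intro j k
    split_ifs
    · exact mul_nonneg (by positivity) (add_nonneg (SS_nonneg _ _) (SS_nonneg _ _))
    · exact le_rfl
  refine ⟨fun k => ∑ j ∈ Finset.range (Nat.log 2 N + 1),
    (if 2 ^ j ≤ T j then (((j : ℝ) + 1) / 2 ^ j) * (SS (j + 1) (fun i => ac e (T j) (1 * i) k) +
        SS (j + 1) (fun i => as e (T j) (1 * i) k)) else 0),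
    continuous_finsetSum _ fun j _ => hV1 j,
    fun k => Finset.sum_nonneg fun j _ => hV0 j k, ?_, ?_⟩
  · intro i hi k
    have hne : (B i).Nonempty := by
      have : B 0 ⊆ B i := chain_sub B i (fun j hj => hB j (by omega)) 0 (Nat.zero_le _)
      exact h0.mono this
    set n := (B i).card with hn
    have hn1 : 1 ≤ n := hne.card_pos
    have hnN : n ≤ N := Finset.card_le_card (hsub i hi)
    set j := Nat.log 2 n with hj
    have hj1 : 2 ^ j ≤ n := Nat.pow_log_le_self 2 (by omega)
    have hj2 : n < 2 ^ (j + 1) := Nat.lt_pow_succ_log_self (by norm_num) n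
    have hnT : n ≤ T j := Finset.card_le_card (top_sub B (2 ^ (j + 1)) m hB i hi hj2)
    have hjN : j ∈ Finset.range (Nat.log 2 N + 1) := by
      rw [Finset.mem_range, Nat.lt_succ_iff]
      exact Nat.log_mono_right hnN
    have hinj : Set.InjOn e (Finset.range n : Finset ℕ) := by
      intro x hx y hy hxy
      rw [Finset.coe_range, Set.mem_Iio] at hx hy
      exact he1 (show x < _ by omega) (show y < _ by omega) hxy
    have e1 : cB (B i) k = ac e (T j) n k - ac e (T j) 0 k := by
      rw [he2 i hi, cB, Finset.sum_image hinj, ac, ac, min_eq_left hnT]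
      simp
    have e2 : sB (B i) k = as e (T j) n k - as e (T j) 0 k := by
      rw [he2 i hi, sB, Finset.sum_image hinj, as, as, min_eq_left hnT]
      simp
    have c1 := chain (j + 1) (fun i => ac e (T j) (1 * i) k) n hj2
    have c2 := chain (j + 1) (fun i => as e (T j) (1 * i) k) n hj2
    simp only [one_mul] at c1 c2
    have h1 : nB (B i) k ≤ ((j : ℝ) + 1) * (SS (j + 1) (fun i => ac e (T j) i k) +
        SS (j + 1) (fun i => as e (T j) i k)) := by
      rw [nB, e1, e2]
      push_cast at c1 c2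
      linarith
    have hS : 0 ≤ SS (j + 1) (fun i => ac e (T j) i k) + SS (j + 1) (fun i => as e (T j) i k) :=
      add_nonneg (SS_nonneg _ _) (SS_nonneg _ _)
    have h2 : nB (B i) k / n ≤ (if 2 ^ j ≤ T j then (((j : ℝ) + 1) / 2 ^ j) *
        (SS (j + 1) (fun i => ac e (T j) (1 * i) k) +
        SS (j + 1) (fun i => as e (T j) (1 * i) k)) else 0) := by
      rw [if_pos (hj1.trans hnT)]
      simp only [one_mul]
      rw [div_mul_eq_mul_div]
      have hj1' : (2 : ℝ) ^ j ≤ n := by exact_mod_cast hj1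
      have hj0 : (0 : ℝ) ≤ (j : ℝ) + 1 := add_nonneg (Nat.cast_nonneg j) zero_le_one
      refine (div_le_div_of_nonneg_right h1 (Nat.cast_nonneg n)).trans ?_
      exact div_le_div_of_nonneg_left (mul_nonneg hj0 hS) (pow_pos two_pos j) hj1'
    exact h2.trans (Finset.single_le_sum
      (f := fun j : ℕ => (if 2 ^ j ≤ T j then (((j : ℝ) + 1) / 2 ^ j) *
        (SS (j + 1) (fun i => ac e (T j) (1 * i) k) +
        SS (j + 1) (fun i => as e (T j) (1 * i) k)) else 0)) (fun j _ => hV0 j k) hjN)
  · have hWI : ∀ j : ℕ, Integrable (fun k : Fin d → ℝ => w k *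
        (if 2 ^ j ≤ T j then (((j : ℝ) + 1) / 2 ^ j) * (SS (j + 1) (fun i => ac e (T j) (1 * i) k) +
          SS (j + 1) (fun i => as e (T j) (1 * i) k)) else 0)) (volume.restrict (cube d)) :=
      fun j => integrable_of_cont (hw.cont.mul (hV1 j))
    simp_rw [Finset.mul_sum]
    rw [integral_finsetSum _ (fun j _ => hWI j)]
    refine Finset.sum_le_sum fun j _ => ?_
    by_cases hj : 2 ^ j ≤ T j
    · have hj' : 2 ^ j ≤ (top B (2 ^ (j + 1)) m).card := hj
      rw [if_pos hj']
      simp only [if_pos hj]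
      have e3 : ∀ k : Fin d → ℝ, w k * ((((j : ℝ) + 1) / 2 ^ j) *
          (SS (j + 1) (fun i => ac e (T j) (1 * i) k) +
          SS (j + 1) (fun i => as e (T j) (1 * i) k))) = (((j : ℝ) + 1) / 2 ^ j) *
          (w k * (SS (j + 1) (fun i => ac e (T j) (1 * i) k) +
          SS (j + 1) (fun i => as e (T j) (1 * i) k))) := fun k => by ring
      simp_rw [e3]
      rw [integral_const_mul]
      have h5 := int_SS2 hw e (T j) (hte (2 ^ (j + 1))) (j + 1) 1
      have h6 : (Finset.range (T j)).image e = top B (2 ^ (j + 1)) m := (hti (2 ^ (j + 1))).symm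
      rw [h6] at h5
      refine (mul_le_mul_of_nonneg_left h5 (by positivity)).trans ?_
      have h7 : (0 : ℝ) < T j := by
        have : 0 < T j := lt_of_lt_of_le (by positivity) hj
        exact_mod_cast this
      have h8 : ((T j : ℕ) : ℝ) ≤ 2 * 2 ^ j := by
        have : T j < 2 ^ (j + 1) := top_card B (2 ^ (j + 1)) (by positivity) m
        have h9 : ((T j : ℕ) : ℝ) < ((2 ^ (j + 1) : ℕ) : ℝ) := by exact_mod_cast this
        push_cast at h9
        rw [pow_succ] at h9
        linarith
      have hQ := Qw_nonneg hw (top B (2 ^ (j + 1)) m)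
      have h2j : (0 : ℝ) < 2 ^ j := by positivity
      have h10 : (1 : ℝ) / 2 ^ j ≤ 2 / T j := by
        rw [div_le_div_iff₀ h2j h7]
        linarith
      calc ((j : ℝ) + 1) / 2 ^ j * (((j + 1 : ℕ) : ℝ) * Qw w (top B (2 ^ (j + 1)) m))
          = ((j : ℝ) + 1) ^ 2 * Qw w (top B (2 ^ (j + 1)) m) * (1 / 2 ^ j) := by
            push_cast; ring
        _ ≤ ((j : ℝ) + 1) ^ 2 * Qw w (top B (2 ^ (j + 1)) m) * (2 / T j) :=
            mul_le_mul_of_nonneg_left h10 (mul_nonneg (by positivity) hQ)
        _ = _ := by simp only [hT]; ring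
    · have hj' : ¬ 2 ^ j ≤ (top B (2 ^ (j + 1)) m).card := hj
      rw [if_neg hj']
      simp only [if_neg hj, mul_zero, integral_zero, le_refl]

end Run7.h976.IR
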