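import Pool.Agent.Run7.h976.IR.Lim

/-!
Tails of the cluster size, the Fejér weights, and the sums over dyadic sizes.
-/

set_option autoImplicit false

namespace Run7.h976.IR

open MeasureTheory Filter Topology
open Pool.Agent.Results.MP_54f242_pr.InfraredMean

variable {d : ℕ}

theorem clus_meas (u : Fin d → ℤ) (n : ℕ) :
    MeasurableSet {ω | (n : ℕ∞) ≤ {x | (opn (d := d) ω).Reachable u x}.encard} := by
  have e : {ω | (n : ℕ∞) ≤ {x | (opn (d := d) ω).Reachable u x}.encard} =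
      ⋃ B ∈ {B : Finset (Fin d → ℤ) | B.card = n}, ⋂ x ∈ B,
        {ω | (opn (d := d) ω).Reachable u x} := by
    ext ω
    simp only [Set.mem_ofPred_eq, Set.mem_iUnion, Set.mem_iInter, exists_prop]
    constructor
    · intro h
      obtain ⟨t, ht1, ht2⟩ := Set.exists_subset_encard_eq h
      have hf : t.Finite := Set.finite_of_encard_eq_coe ht2
      refine ⟨hf.toFinset, ?_, ?_⟩
      · have := hf.encard_eq_coe_toFinset_card
        rw [ht2] at this
        exact_mod_cast this.symm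
      · intro x hx; exact ht1 (hf.mem_toFinset.1 hx)
    · rintro ⟨B, hB, h⟩
      rw [← hB, ← Set.encard_coe_eq_coe_finsetCard]
      exact Set.encard_le_encard (fun x hx => h x hx)
  rw [e]
  exact MeasurableSet.biUnion (Set.to_countable _) fun B _ =>
    Finset.measurableSet_biInter _ fun x _ => meas_reach u x

/-- the tail of the size of the cluster of the origin -/
noncomputable def tail (d : ℕ) (p : NNReal) (hp : p ≤ 1) (n : ℕ) : ℝ :=
  (P d p hp).real {ω | (n : ℕ∞) ≤ {x | (opn ω).Reachable 0 x}.encard}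

theorem prob_clus (p : NNReal) (hp : p ≤ 1) (u : Fin d → ℤ) (n : ℕ) :
    (P d p hp).real {ω | (n : ℕ∞) ≤ {x | (opn ω).Reachable u x}.encard} = tail d p hp n := by
  unfold tail
  let T : ((Fin d → ℤ) × Fin d → Bool) → ((Fin d → ℤ) × Fin d → Bool) := fun ω e => ω (sh u e)
  have hT : Measurable T := measurable_pi_iff.2 fun e => measurable_pi_apply _
  have hmap : (P d p hp).map T = P d p hp :=
    MeasureTheory.Measure.map_infinitePi_infinitePi_of_inj (sh u).injective
  have hadj : ∀ ω a b, (opn (T ω)).Adj a b ↔ (opn ω).Adj (a + u) (b + u) := by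
    intro ω a b
    have e1 : ∀ (i : Fin d) (x y : Fin d → ℤ),
        (y + u = x + u + Pi.single i (1 : ℤ)) ↔ (y = x + Pi.single i (1 : ℤ)) := by
      intro i x y
      rw [add_right_comm, add_left_inj]
    simp only [opn, SimpleGraph.fromRel_adj, T, sh, e1]
    simp
  have hreach : ∀ ω a b, (opn (T ω)).Reachable a b ↔ (opn ω).Reachable (a + u) (b + u) := by
    intro ω a b
    let φ : opn (T ω) ≃g opn ω := ⟨Equiv.addRight u, fun {a b} => (hadj ω a b).symm⟩
    exact (SimpleGraph.Iso.reachable_iff (φ := φ) (u := a) (v := b)).symm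
  have h1 : {ω | (n : ℕ∞) ≤ {x | (opn (d := d) ω).Reachable u x}.encard} =
      T ⁻¹' {ω | (n : ℕ∞) ≤ {x | (opn (d := d) ω).Reachable 0 x}.encard} := by
    ext ω
    simp only [Set.mem_preimage, Set.mem_ofPred_eq]
    have e : {x | (opn (d := d) ω).Reachable u x} =
        (Equiv.addRight u) '' {x | (opn (d := d) (T ω)).Reachable 0 x} := by
      ext x
      simp only [Set.mem_image, Set.mem_ofPred_eq, hreach, zero_add, Equiv.coe_addRight]
      constructor
      · intro h; exact ⟨x - u, by simpa using h, by simp⟩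
      · rintro ⟨y, hy, rfl⟩; exact hy
    rw [e, (Equiv.addRight u).injective.encard_image]
  rw [h1, measureReal_def, measureReal_def, ← Measure.map_apply hT (clus_meas _ _), hmap]

theorem card_tail (Λ : Finset (Fin d → ℤ)) (p : NNReal) (hp : p ≤ 1) (y : Fin d → ℤ) (n : ℕ) :
    (M d).real {ω | n ≤ (Bx Λ p ω y).card} ≤ tail d p hp n := by
  classical
  rw [← prob_clus p hp y n, ← map_conf p hp, measureReal_def, measureReal_def,
    Measure.map_apply (conf_meas p) (clus_meas y n)]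
  refine ENNReal.toReal_mono (measure_ne_top _ _) (measure_mono fun ω hω => ?_)
  simp only [Set.mem_preimage, Set.mem_ofPred_eq] at hω ⊢
  calc (n : ℕ∞) ≤ ((Bx Λ p ω y).card : ℕ∞) := by exact_mod_cast hω
    _ = ((Bx Λ p ω y : Finset (Fin d → ℤ)) : Set (Fin d → ℤ)).encard :=
        (Set.encard_coe_eq_coe_finsetCard _).symm
    _ ≤ _ := by
        refine Set.encard_le_encard fun x hx => ?_
        rw [Finset.mem_coe, Bx, Finset.mem_filter] at hx
        exact hx.2

theorem shift_sum (g : (Fin d → ℤ) → ℝ) (hg : ∀ x, 0 ≤ g x) (hs : Summable g)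
    (Λ : Finset (Fin d → ℤ)) (y : Fin d → ℤ) : ∑ z ∈ Λ, g (z - y) ≤ ∑' x, g x := by
  have h1 : Summable fun z => g (z - y) := (Equiv.subRight y).summable_iff.2 hs
  refine (h1.sum_le_tsum Λ (fun z _ => hg _)).trans (le_of_eq ?_)
  exact (Equiv.subRight y).tsum_eq g

theorem shift_fin (g : (Fin d → ℤ) → ℝ) (hg : ∀ x, 0 ≤ g x) (F : Finset (Fin d → ℤ))
    (hF : ∀ x ∉ F, g x = 0) (Λ : Finset (Fin d → ℤ)) (y : Fin d → ℤ) :
    ∑ z ∈ Λ, g (z - y) ≤ ∑ x ∈ F, g x := by
  refine (shift_sum g hg (summable_of_ne_finset_zero hF) Λ y).trans (le_of_eq ?_)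
  exact tsum_eq_sum hF

/-- Markov -/
theorem markov (Λ : Finset (Fin d → ℤ)) (p : NNReal) (hp : p ≤ 1) (hs : Summable (tau d p hp))
    (y : Fin d → ℤ) (n : ℕ) :
    (n : ℝ) * (M d).real {ω | n ≤ (Bx Λ p ω y).card} ≤ chi d p hp := by
  classical
  set f : (Ed d → unitInterval) → ℝ := fun ω => ∑ z ∈ Λ,
    Set.indicator {ω : Ed d → unitInterval | (opn (conf p ω)).Reachable y z} (fun _ => (1 : ℝ)) ω
    with hf
  have hfi : ∀ z, Integrable (Set.indicator
      {ω : Ed d → unitInterval | (opn (conf p ω)).Reachable y z} (fun _ => (1 : ℝ))) (M d) :=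
    fun z => (integrable_const _).indicator (reach_meas p y z)
  have hfc : ∀ ω, f ω = (Bx Λ p ω y).card := by
    intro ω
    rw [hf, Bx, Finset.card_filter]
    push_cast
    refine Finset.sum_congr rfl fun z _ => ?_
    simp only [Set.indicator_apply, Set.mem_ofPred_eq]
  have h1 := mul_meas_ge_le_integral_of_nonneg (μ := M d) (f := f)
    (Eventually.of_forall fun ω => by
      simp only [Pi.zero_apply]; rw [hfc]; exact Nat.cast_nonneg _)
    (integrable_finsetSum _ fun z _ => hfi z) (n : ℝ)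
  have h2 : {ω | (n : ℝ) ≤ f ω} = {ω | n ≤ (Bx Λ p ω y).card} := by
    ext ω
    simp only [Set.mem_ofPred_eq, hfc, Nat.cast_le]
  rw [h2] at h1
  refine h1.trans ?_
  rw [hf, integral_finsetSum _ (fun z _ => hfi z)]
  simp_rw [integral_indicator_const _ (reach_meas p y _), reach_prob p hp, smul_eq_mul, mul_one]
  exact shift_sum (tau d p hp) (tau_nonneg p hp) hs Λ y

/-- bounds of the weighted correlations of large clusters -/
theorem sj_le {w : (Fin d → ℝ) → ℝ} (hw : Wt w) (F : Finset (Fin d → ℤ))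
    (hF : ∀ x ∉ F, wh w x = 0) (c : ℝ) (hc : 0 ≤ c) (hFc : ∀ x, wh w x ≤ c)
    (p : NNReal) (hp : p ≤ 1) (Λ : Finset (Fin d → ℤ)) (y : Fin d → ℤ) (n : ℕ) :
    ∑ z ∈ Λ, wh w (z - y) * (M d).real
      {ω | (opn (conf p ω)).Reachable y z ∧ n ≤ (Bx Λ p ω y).card} ≤
      c * ∑ x ∈ F, tau d p hp x ∧
    ∑ z ∈ Λ, wh w (z - y) * (M d).real
      {ω | (opn (conf p ω)).Reachable y z ∧ n ≤ (Bx Λ p ω y).card} ≤
      c * F.card * (M d).real {ω | n ≤ (Bx Λ p ω y).card} := by
  constructor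
  · have h1 : ∀ z ∈ Λ, wh w (z - y) * (M d).real
        {ω | (opn (conf p ω)).Reachable y z ∧ n ≤ (Bx Λ p ω y).card} ≤
        wh w (z - y) * tau d p hp (z - y) := by
      intro z _
      refine mul_le_mul_of_nonneg_left ?_ (hw.co _)
      rw [← reach_prob p hp y z]
      exact measureReal_mono (fun ω hω => hω.1)
    refine (Finset.sum_le_sum h1).trans ?_
    refine (shift_fin (fun x => wh w x * tau d p hp x)
      (fun x => mul_nonneg (hw.co x) (tau_nonneg p hp x)) F
      (fun x hx => by rw [hF x hx, zero_mul]) Λ y).trans ?_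
    rw [Finset.mul_sum]
    exact Finset.sum_le_sum fun x _ => mul_le_mul_of_nonneg_right (hFc x) (tau_nonneg p hp x)
  · have h1 : ∀ z ∈ Λ, wh w (z - y) * (M d).real
        {ω | (opn (conf p ω)).Reachable y z ∧ n ≤ (Bx Λ p ω y).card} ≤
        wh w (z - y) * (M d).real {ω | n ≤ (Bx Λ p ω y).card} := by
      intro z _
      refine mul_le_mul_of_nonneg_left ?_ (hw.co _)
      exact measureReal_mono (fun ω hω => hω.2)
    refine (Finset.sum_le_sum h1).trans ?_
    rw [← Finset.sum_mul]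
    refine mul_le_mul_of_nonneg_right ?_ measureReal_nonneg
    refine (shift_fin (wh w) hw.co F hF Λ y).trans ?_
    refine (Finset.sum_le_sum fun x _ => hFc x).trans (le_of_eq ?_)
    rw [Finset.sum_const, nsmul_eq_mul, mul_comm]

/-- the Fejér weights -/
noncomputable def fw (d n : ℕ) (k : Fin d → ℝ) : ℝ := nB (box d n) k / (n : ℝ) ^ d

theorem fw_cont (n : ℕ) : Continuous (fw d n) := (nB_cont _).div_const _

theorem int_cc (x y : Fin d → ℤ) : 0 ≤ ∫ k in cube d, Real.cos (dot k y) * Real.cos (dot k x) := by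
  rw [int_cos_mul_cos]
  split_ifs <;> positivity

theorem wh_fw (n : ℕ) (x : Fin d → ℤ) : wh (fw d n) x =
    (∑ y ∈ box d n, ∑ z ∈ box d n,
      ∫ k in cube d, Real.cos (dot k (z - y)) * Real.cos (dot k x)) / (n : ℝ) ^ d := by
  unfold wh fw
  have e : ∀ k : Fin d → ℝ, nB (box d n) k / (n : ℝ) ^ d * Real.cos (dot k x) =
      (∑ y ∈ box d n, ∑ z ∈ box d n, Real.cos (dot k (z - y)) * Real.cos (dot k x)) /
        (n : ℝ) ^ d := by
    intro k
    rw [nB_eq, div_mul_eq_mul_div, Finset.sum_mul]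
    congr 1
    exact Finset.sum_congr rfl fun y _ => Finset.sum_mul _ _ _
  have h1 : ∀ z : Fin d → ℤ, Integrable (fun k : Fin d → ℝ =>
      Real.cos (dot k z) * Real.cos (dot k x)) (volume.restrict (cube d)) := fun z =>
    integrable_of_cont ((cos_cont z).mul (cos_cont x))
  simp_rw [e]
  rw [integral_div]
  congr 1
  rw [integral_finsetSum _ (fun y _ => integrable_finsetSum _ fun z _ => h1 _)]
  exact Finset.sum_congr rfl fun y _ => integral_finsetSum _ (fun z _ => h1 _)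

theorem fw_wt (n : ℕ) : Wt (fw d n) := by
  refine ⟨fw_cont n, fun k => div_nonneg (nB_nonneg _ _) (by positivity), fun x => ?_⟩
  have := wh_fw (d := d) n x
  unfold wh at this
  rw [this]
  exact div_nonneg (Finset.sum_nonneg fun y _ => Finset.sum_nonneg fun z _ => int_cc x _)
    (by positivity)

/-- the box `(-n, n)^d` -/
noncomputable def sbox (d n : ℕ) : Finset (Fin d → ℤ) := Fintype.piFinset (fun _ => Finset.Ioo (-(n : ℤ)) n)

theorem sbox_card (n : ℕ) (hn : 1 ≤ n) : ((sbox d n).card : ℝ) = (2 * (n : ℝ) - 1) ^ d := by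
  rw [sbox, Fintype.card_piFinset, Finset.prod_const, Finset.card_univ, Fintype.card_fin,
    Int.card_Ioo]
  push_cast
  congr 1
  have : (((n : ℤ) - -(n : ℤ) - 1).toNat : ℤ) = 2 * n - 1 := by omega
  exact_mod_cast this

theorem wh_zero (n : ℕ) (x : Fin d → ℤ) (hx : x ∉ sbox d n) : wh (fw d n) x = 0 := by
  rw [wh_fw]
  rw [Finset.sum_eq_zero, zero_div]
  intro y hy
  refine Finset.sum_eq_zero fun z hz => ?_
  have h1 : ∀ v : Fin d → ℤ, (z - y = v) → v ∈ sbox d n := by
    rintro v rfl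
    rw [sbox, Fintype.mem_piFinset]
    intro i
    have h2 := Fintype.mem_piFinset.1 hy i
    have h3 := Fintype.mem_piFinset.1 hz i
    rw [Finset.mem_Ico] at h2 h3
    rw [Finset.mem_Ioo, Pi.sub_apply]
    omega
  have h4 : ∀ v : Fin d → ℤ, v ∈ sbox d n → -v ∈ sbox d n := by
    intro v hv
    rw [sbox, Fintype.mem_piFinset] at hv ⊢
    intro i
    have := hv i
    rw [Finset.mem_Ioo] at this ⊢
    rw [Pi.neg_apply]
    omega
  rw [int_cos_mul_cos, if_neg (fun h => hx (h1 x h)),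
    if_neg (fun h => hx (by have := h4 _ (h1 _ h); rwa [neg_neg] at this))]
  simp

theorem wh_le (n : ℕ) (hn : 1 ≤ n) (x : Fin d → ℤ) : wh (fw d n) x ≤ (2 * Real.pi) ^ d := by
  have hn0 : (0 : ℝ) < (n : ℝ) ^ d := by positivity
  rw [wh_fw, div_le_iff₀ hn0]
  have h1 : ∀ y ∈ box d n, ∑ z ∈ box d n,
      ∫ k in cube d, Real.cos (dot k (z - y)) * Real.cos (dot k x) ≤ (2 * Real.pi) ^ d := by
    intro y _
    simp_rw [int_cos_mul_cos]
    have e : ∀ z : Fin d → ℤ, (2 * Real.pi) ^ d * ((if z - y = x then (1 : ℝ) else 0) +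
        (if z - y = -x then 1 else 0)) / 2 = (2 * Real.pi) ^ d / 2 *
        (if z = x + y then (1 : ℝ) else 0) + (2 * Real.pi) ^ d / 2 *
        (if z = -x + y then (1 : ℝ) else 0) := by
      intro z
      simp only [sub_eq_iff_eq_add]
      ring
    simp_rw [e]
    rw [Finset.sum_add_distrib, ← Finset.mul_sum, ← Finset.mul_sum, Finset.sum_ite_eq',
      Finset.sum_ite_eq']
    have hp : (0 : ℝ) ≤ (2 * Real.pi) ^ d := by positivity
    split_ifs <;> linarith
  refine (Finset.sum_le_sum h1).trans (le_of_eq ?_)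
  rw [Finset.sum_const, nsmul_eq_mul, box_card, mul_comm]

/-- the weight is large near the origin -/
theorem fw_large (hd : 1 ≤ d) (n : ℕ) (hn : 1 ≤ n) (k : Fin d → ℝ)
    (hk : ∀ i, |k i| ≤ 1 / ((d : ℝ) * n)) : (n : ℝ) ^ d / 4 ≤ fw d n k := by
  have hd0 : (0 : ℝ) < d := by exact_mod_cast hd
  have hn0 : (0 : ℝ) < n := by exact_mod_cast hn
  have hnd : (0 : ℝ) < (n : ℝ) ^ d := by positivity
  have h1 : ∀ y ∈ box d n, (1 : ℝ) / 2 ≤ Real.cos (dot k y) := by
    intro y hy
    have h2 : |dot k y| ≤ 1 := by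
      unfold dot
      refine (Finset.abs_sum_le_sum_abs _ _).trans ?_
      have h3 : ∀ i ∈ (Finset.univ : Finset (Fin d)), |k i * (y i : ℝ)| ≤ 1 / d := by
        intro i _
        have h4 := Fintype.mem_piFinset.1 hy i
        rw [Finset.mem_Ico] at h4
        have h5 : |(y i : ℝ)| ≤ n := by
          rw [abs_of_nonneg (by exact_mod_cast h4.1)]
          exact_mod_cast h4.2.le
        rw [abs_mul]
        calc |k i| * |(y i : ℝ)| ≤ 1 / ((d : ℝ) * n) * n :=
              mul_le_mul (hk i) h5 (abs_nonneg _) (by positivity)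
          _ = 1 / d := by field_simp
      refine (Finset.sum_le_sum h3).trans (le_of_eq ?_)
      rw [Finset.sum_const, Finset.card_univ, Fintype.card_fin, nsmul_eq_mul]
      field_simp
    have h6 := Real.one_sub_sq_div_two_le_cos (x := dot k y)
    have h7 : dot k y ^ 2 ≤ 1 := by
      rw [← sq_abs]
      exact pow_le_one₀ (abs_nonneg _) h2
    linarith
  have h8 : (n : ℝ) ^ d / 2 ≤ cB (box d n) k := by
    have := Finset.sum_le_sum h1
    rw [Finset.sum_const, nsmul_eq_mul, box_card] at this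
    unfold cB
    linarith
  rw [fw, le_div_iff₀ hnd, nB]
  nlinarith [sq_nonneg (sB (box d n) k), sq_nonneg (cB (box d n) k - (n : ℝ) ^ d / 2)]

theorem fw_one (k : Fin d → ℝ) : fw d 1 k = 1 := by
  have : box d 1 = {0} := by
    ext x
    rw [box, Fintype.mem_piFinset, Finset.mem_singleton]
    constructor
    · intro h
      funext i
      have := h i
      rw [Finset.mem_Ico] at this
      simp only [Pi.zero_apply]
      push_cast at this
      omega
    · rintro rfl i
      simp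
  unfold fw nB cB sB
  rw [this]
  simp [dot]

theorem tel (I : ℕ) : ∑ i ∈ Finset.range I, ((i : ℝ) + 1) ^ 2 / 2 ^ i =
    12 - (2 * ((I : ℝ) + 1) ^ 2 + 4 * ((I : ℝ) + 1) + 6) / 2 ^ I := by
  induction I with
  | zero => norm_num
  | succ I ih =>
    rw [Finset.sum_range_succ, ih]
    have : (2 : ℝ) ^ I ≠ 0 := by positivity
    push_cast
    rw [pow_succ]
    field_simp
    ring

/-- the sum over the dyadic sizes -/
theorem dy_sum (S : ℝ) (hS : 0 ≤ S) (J L : ℕ) : ∑ j ∈ Finset.range L, ((j : ℝ) + 1) ^ 2 *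
    (S * min 1 ((2 : ℝ) ^ J / 2 ^ j)) ≤ 13 * ((J : ℝ) + 1) ^ 3 * S := by
  have h0 : ∀ j : ℕ, 0 ≤ ((j : ℝ) + 1) ^ 2 * (S * min 1 ((2 : ℝ) ^ J / 2 ^ j)) := fun j =>
    mul_nonneg (by positivity) (mul_nonneg hS (le_min zero_le_one (by positivity)))
  have h1 : ∑ j ∈ Finset.range L, ((j : ℝ) + 1) ^ 2 * (S * min 1 ((2 : ℝ) ^ J / 2 ^ j)) ≤
      ∑ j ∈ Finset.range (J + L), ((j : ℝ) + 1) ^ 2 * (S * min 1 ((2 : ℝ) ^ J / 2 ^ j)) :=
    Finset.sum_le_sum_of_subset_of_nonneg (Finset.range_mono (Nat.le_add_left L J))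
      (fun j _ _ => h0 j)
  refine h1.trans ?_
  rw [Finset.sum_range_add]
  have h2 : ∑ j ∈ Finset.range J, ((j : ℝ) + 1) ^ 2 * (S * min 1 ((2 : ℝ) ^ J / 2 ^ j)) ≤
      ((J : ℝ) + 1) ^ 3 * S := by
    have h3 : ∀ j ∈ Finset.range J, ((j : ℝ) + 1) ^ 2 * (S * min 1 ((2 : ℝ) ^ J / 2 ^ j)) ≤
        ((J : ℝ) + 1) ^ 2 * S := by
      intro j hj
      rw [Finset.mem_range] at hj
      have h4 : ((j : ℝ) + 1) ^ 2 ≤ ((J : ℝ) + 1) ^ 2 := by
        have : (j : ℝ) ≤ J := by exact_mod_cast hj.le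
        exact pow_le_pow_left₀ (by positivity) (by linarith) 2
      refine mul_le_mul h4 (mul_le_of_le_one_right hS (min_le_left _ _))
        (mul_nonneg hS (le_min zero_le_one (by positivity))) (by positivity)
    refine (Finset.sum_le_sum h3).trans ?_
    rw [Finset.sum_const, Finset.card_range, nsmul_eq_mul]
    have : (0 : ℝ) ≤ ((J : ℝ) + 1) ^ 2 * S := mul_nonneg (by positivity) hS
    nlinarith
  have h5 : ∑ i ∈ Finset.range L, (((J + i : ℕ) : ℝ) + 1) ^ 2 *
      (S * min 1 ((2 : ℝ) ^ J / 2 ^ (J + i))) ≤ 12 * ((J : ℝ) + 1) ^ 3 * S := by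
    have h6 : ∀ i ∈ Finset.range L, (((J + i : ℕ) : ℝ) + 1) ^ 2 *
        (S * min 1 ((2 : ℝ) ^ J / 2 ^ (J + i))) ≤
        ((J : ℝ) + 1) ^ 2 * S * (((i : ℝ) + 1) ^ 2 / 2 ^ i) := by
      intro i _
      have h7 : (2 : ℝ) ^ J / 2 ^ (J + i) = 1 / 2 ^ i := by
        rw [pow_add]
        have : (2 : ℝ) ^ J ≠ 0 := by positivity
        field_simp
      have h8 : (((J + i : ℕ) : ℝ) + 1) ^ 2 ≤ ((J : ℝ) + 1) ^ 2 * ((i : ℝ) + 1) ^ 2 := by
        rw [← mul_pow]
        refine pow_le_pow_left₀ (by positivity) ?_ 2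
        push_cast
        have h9 : (0 : ℝ) ≤ J := Nat.cast_nonneg J
        have h10 : (0 : ℝ) ≤ i := Nat.cast_nonneg i
        nlinarith [mul_nonneg h9 h10]
      calc (((J + i : ℕ) : ℝ) + 1) ^ 2 * (S * min 1 ((2 : ℝ) ^ J / 2 ^ (J + i)))
          ≤ (((J : ℝ) + 1) ^ 2 * ((i : ℝ) + 1) ^ 2) * (S * (1 / 2 ^ i)) := by
            refine mul_le_mul h8 ?_ (mul_nonneg hS (le_min zero_le_one (by positivity)))
              (by positivity)
            refine mul_le_mul_of_nonneg_left ?_ hS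
            rw [h7]
            exact min_le_right _ _
        _ = _ := by ring
    refine (Finset.sum_le_sum h6).trans ?_
    rw [← Finset.mul_sum, tel]
    have h11 : (0 : ℝ) ≤ (2 * ((L : ℝ) + 1) ^ 2 + 4 * ((L : ℝ) + 1) + 6) / 2 ^ L := by
      positivity
    have h12 : (0 : ℝ) ≤ ((J : ℝ) + 1) ^ 2 * S := mul_nonneg (by positivity) hS
    have h13 : (0 : ℝ) ≤ J := Nat.cast_nonneg J
    calc ((J : ℝ) + 1) ^ 2 * S * (12 - (2 * ((L : ℝ) + 1) ^ 2 + 4 * ((L : ℝ) + 1) + 6) / 2 ^ L)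
        ≤ ((J : ℝ) + 1) ^ 2 * S * 12 := mul_le_mul_of_nonneg_left (by linarith) h12
      _ ≤ ((J : ℝ) + 1) ^ 2 * S * 12 * ((J : ℝ) + 1) :=
          le_mul_of_one_le_right (by positivity) (by linarith)
      _ = _ := by ring
  push_cast at h5 ⊢
  linarith

end Run7.h976.IR
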